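import Pool.Agent.Helper9.QH.Q1

/-!
# Project QH (MP_0f6f3f_an): contracted subspaces of quaternionic groups

`sepA_of_iso`: `SepA` holds if the contracted subspaces are isoclinic. `sepA_line`: contracted lines. `sepA_quat`: contracted planes of groups of quaternionic matrices: they are quaternionic lines.
-/

set_option autoImplicit false

open Filter Topology Matrix
open scoped ComplexConjugate

namespace Pool.Agent.Helper9.QH

open Pool.Agent.Helper84.NI Pool.Agent.Helper84.GVN Pool.Agent.Helper90.RK Pool.Agent.Helper96.RK Pool.Agent.Helper84.GN.S3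

variable {G : Type} [Group G] {N : ℕ} {P : PH G N}

theorem bJ_erase (q i : Fin N) : bJ (Finset.univ.erase q) i = if q < i then 1 else 0 := by
  unfold bJ
  by_cases hi : q < i
  · rw [if_pos hi, Finset.card_eq_one]
    refine ⟨q, ?_⟩
    ext l
    simp only [Finset.mem_filter, Finset.mem_univ, true_and, Finset.mem_erase, not_and, Finset.mem_singleton]
    constructor
    · rintro ⟨-, h⟩
      by_contra hne
      exact h hne trivial
    · rintro rfl
      exact ⟨hi, fun h => absurd rfl h⟩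
  · rw [if_neg hi, Finset.card_eq_zero, Finset.filter_eq_empty_iff]
    intro l _
    simp only [Finset.mem_erase, Finset.mem_univ, and_true, not_and, not_not]
    intro h1 h2
    exact hi (h2 ▸ h1)

private theorem ns_neg9 (A : MN N) : ns (-A) = ns A := by
  unfold ns
  simp only [Matrix.neg_apply, norm_neg]

private theorem col9 {C : MN N} (hC : IsU C) (k : Fin N) : ∑ i, ‖C i k‖ ^ 2 = 1 := by
  have h1 : (Cᴴ * C) k k = 1 := by
    rw [show Cᴴ * C = 1 from hC, Matrix.one_apply_eq]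
  rw [Matrix.mul_apply] at h1
  have h2 : ((∑ i, ‖C i k‖ ^ 2 : ℝ) : ℂ) = 1 := by
    rw [← h1]
    push_cast
    refine Finset.sum_congr rfl fun i _ => ?_
    rw [Matrix.conjTranspose_apply, RCLike.star_def, RCLike.conj_mul]
    norm_cast
  exact_mod_cast h2

private theorem row9 {C : MN N} (hC : IsU C) (k : Fin N) : ∑ i, ‖C k i‖ ^ 2 = 1 := by
  rw [← col9 hC.star k]
  refine Finset.sum_congr rfl fun i _ => ?_
  rw [Matrix.conjTranspose_apply, norm_star]

/-- The projection on the last coordinates. -/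
noncomputable def Eq (q : Fin N) : MN N := diagonal fun i => if q < i then (1 : ℂ) else 0

theorem ns_comm_q {C : MN N} (hC : IsU C) (q : Fin N) :
    ns (Eq q * C - C * Eq q) = 2 * ∑ j, ∑ i, (if i ≤ q ∧ q < j then ‖C i j‖ ^ 2 else 0) := by
  have h1 : ∀ i j, ‖(Eq q * C - C * Eq q) i j‖ ^ 2 =
      (if i ≤ q ∧ q < j then ‖C i j‖ ^ 2 else 0) + (if q < i ∧ j ≤ q then ‖C i j‖ ^ 2 else 0) := by
    intro i j
    unfold Eq
    rw [Matrix.sub_apply, Matrix.diagonal_mul, Matrix.mul_diagonal]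
    by_cases hi : q < i
    · by_cases hj : q < j
      · simp [hi, hj, not_le.2 hi, not_le.2 hj]
      · simp [hi, hj, not_le.2 hi, not_lt.1 hj]
    · by_cases hj : q < j
      · simp [hi, hj, not_lt.1 hi]
      · simp [hi, hj]
  have h2 : ∑ j, ∑ i, (if i ≤ q ∧ q < j then ‖C i j‖ ^ 2 else 0) =
      ∑ i, ∑ j, (if q < i ∧ j ≤ q then ‖C i j‖ ^ 2 else 0) := by
    -- both are the number of last coordinates minus the mass of the last block
    have e1 : ∀ j, ∑ i, (if i ≤ q ∧ q < j then ‖C i j‖ ^ 2 else 0) =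
        (if q < j then (1 : ℝ) else 0) - ∑ i, (if q < i ∧ q < j then ‖C i j‖ ^ 2 else 0) := by
      intro j
      by_cases hj : q < j
      · rw [if_pos hj, ← col9 hC j, eq_sub_iff_add_eq, ← Finset.sum_add_distrib]
        refine Finset.sum_congr rfl fun i _ => ?_
        by_cases hi : q < i
        · simp [hi, hj, not_le.2 hi]
        · simp [hi, hj, not_lt.1 hi]
      · simp [hj]
    have e2 : ∀ i, ∑ j, (if q < i ∧ j ≤ q then ‖C i j‖ ^ 2 else 0) =
        (if q < i then (1 : ℝ) else 0) - ∑ j, (if q < i ∧ q < j then ‖C i j‖ ^ 2 else 0) := by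
      intro i
      by_cases hi : q < i
      · rw [if_pos hi, ← row9 hC i, eq_sub_iff_add_eq, ← Finset.sum_add_distrib]
        refine Finset.sum_congr rfl fun j _ => ?_
        by_cases hj : q < j
        · simp [hi, hj, not_le.2 hj]
        · simp [hi, hj, not_lt.1 hj]
      · simp [hi]
    rw [Finset.sum_congr rfl fun j _ => e1 j, Finset.sum_congr rfl fun i _ => e2 i, Finset.sum_sub_distrib,
      Finset.sum_sub_distrib]
    congr 1
    exact Finset.sum_comm
  unfold ns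
  rw [Finset.sum_congr rfl fun i _ => Finset.sum_congr rfl fun j _ => h1 i j]
  simp only [Finset.sum_add_distrib]
  rw [← h2, Finset.sum_comm]
  ring

theorem ns_pos_q {A B : MN N} (hA : IsU A) (hB : IsU B) (q : Fin N) :
    ns (A * Eq q * Aᴴ - B * Eq q * Bᴴ) = 2 * ∑ j, ∑ i, (if i ≤ q ∧ q < j then ‖(Aᴴ * B) i j‖ ^ 2 else 0) := by
  rw [← ns_comm_q (hA.star.mul hB) q, ← ns_unitary_mul hA.star (A * Eq q * Aᴴ - B * Eq q * Bᴴ),
    ← ns_mul_unitary hB (Aᴴ * (A * Eq q * Aᴴ - B * Eq q * Bᴴ))]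
  congr 1
  have hA' : Aᴴ * A = 1 := hA
  have hB' : Bᴴ * B = 1 := hB
  calc Aᴴ * (A * Eq q * Aᴴ - B * Eq q * Bᴴ) * B
      = (Aᴴ * A) * Eq q * (Aᴴ * B) - Aᴴ * B * Eq q * (Bᴴ * B) := by
        simp only [Matrix.mul_sub, Matrix.sub_mul, Matrix.mul_assoc]
    _ = _ := by rw [hA', hB', Matrix.one_mul, Matrix.mul_one]

theorem pos_q (S : Sv P) (q j : Fin N) :
    (∀ γ, pos S (bJ (Finset.univ.erase q)) γ j = S.kR γ * Eq q * (S.kR γ)ᴴ) ∨
    ∀ γ, pos S (bJ (Finset.univ.erase q)) γ j = 1 - S.kR γ * Eq q * (S.kR γ)ᴴ := by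
  by_cases hj : q < j
  · left
    intro γ
    unfold pos Eq
    congr 3
    funext i
    rw [bJ_erase, bJ_erase, if_pos hj]
    by_cases hi : q < i <;> simp [hi]
  · right
    intro γ
    have h1 : diagonal (fun i => if bJ (Finset.univ.erase q) i = bJ (Finset.univ.erase q) j then (1 : ℂ) else 0) =
        (1 - Eq q : MN N) := by
      unfold Eq
      rw [← Matrix.diagonal_one, Matrix.diagonal_sub]
      congr 1
      funext i
      rw [bJ_erase, bJ_erase, if_neg hj]
      by_cases hi : q < i <;> simp [hi]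
    unfold pos
    rw [h1, Matrix.mul_sub, Matrix.sub_mul, Matrix.mul_one, (S.uR γ).mul_star]

/-- Isoclinic contracted subspaces are separated in all directions. -/
theorem sepA_of_iso (S : Sv P) (q : Fin N) (hI : ∀ g h : G, 1 < gp S g q → 1 < gp S h q → ∃ μ : ℝ, 0 ≤ μ ∧
    ∀ v : Fin N → ℂ, (∀ i, i ≤ q → v i = 0) →
      ∑ i, (if i ≤ q then ‖(((S.kR g)ᴴ * S.kR h) *ᵥ v) i‖ ^ 2 else 0) = μ * ∑ i, ‖v i‖ ^ 2) : SepA S q := by
  intro δ hδ
  have hN0 : (0 : ℝ) < N := by
    have : 0 < N := by have := q.2; omega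
    exact_mod_cast this
  refine ⟨δ / (N * Real.sqrt (2 * N)), by positivity, fun g h hg hh hd v hv => ?_⟩
  obtain ⟨μ, hμ, hμv⟩ := hI g h hg hh
  rw [hμv v hv]
  refine mul_le_mul_of_nonneg_right ?_ (Finset.sum_nonneg fun _ _ => by positivity)
  set C : MN N := (S.kR g)ᴴ * S.kR h with hC
  -- the columns
  have hcol : ∀ j, q < j → ∑ i, (if i ≤ q then ‖C i j‖ ^ 2 else 0) = μ := by
    intro j hj
    have h1 := hμv (Pi.single j 1) (fun i hi => by
      rw [Pi.single_eq_of_ne (ne_of_lt (lt_of_le_of_lt hi hj))])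
    have h2 : ∑ i, ‖(Pi.single j (1 : ℂ) : Fin N → ℂ) i‖ ^ 2 = 1 := by
      rw [Finset.sum_eq_single j]
      · simp
      · intro i _ hi
        rw [Pi.single_eq_of_ne hi]
        simp
      · intro h
        exact absurd (Finset.mem_univ j) h
    rw [h2, mul_one] at h1
    rw [← h1]
    refine Finset.sum_congr rfl fun i _ => ?_
    rw [Matrix.mulVec_single_one]
    rfl
  have hT : ∑ j, ∑ i, (if i ≤ q ∧ q < j then ‖C i j‖ ^ 2 else 0) ≤ N * μ := by
    calc ∑ j, ∑ i, (if i ≤ q ∧ q < j then ‖C i j‖ ^ 2 else 0) ≤ ∑ _j : Fin N, μ := by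
          refine Finset.sum_le_sum fun j _ => ?_
          by_cases hj : q < j
          · rw [← hcol j hj]
            refine le_of_eq (Finset.sum_congr rfl fun i _ => ?_)
            simp [hj]
          · simp [hj, hμ]
      _ = N * μ := by rw [Finset.sum_const, Finset.card_univ, Fintype.card_fin, nsmul_eq_mul]
  have hns : ∀ j, ns (pos S (bJ (Finset.univ.erase q)) g j - pos S (bJ (Finset.univ.erase q)) h j) ≤ 2 * (N * μ) := by
    intro j
    refine le_trans (le_of_eq ?_) (mul_le_mul_of_nonneg_left hT (by norm_num))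
    rw [hC, ← ns_pos_q (S.uR g) (S.uR h) q]
    rcases pos_q S q j with h1 | h1
    · rw [h1, h1]
    · rw [h1, h1, ← ns_neg9]
      congr 1
      abel
  have hd' : δ ≤ N * Real.sqrt (2 * (N * μ)) := by
    refine hd.trans ?_
    unfold pdist
    calc ∑ j, Real.sqrt (ns (pos S (bJ (Finset.univ.erase q)) g j - pos S (bJ (Finset.univ.erase q)) h j))
        ≤ ∑ _j : Fin N, Real.sqrt (2 * (N * μ)) := Finset.sum_le_sum fun j _ => Real.sqrt_le_sqrt (hns j)
      _ = _ := by rw [Finset.sum_const, Finset.card_univ, Fintype.card_fin, nsmul_eq_mul]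
  have h2 : δ ^ 2 ≤ N ^ 2 * (2 * (N * μ)) := by
    have h3 := pow_le_pow_left₀ hδ.le hd' 2
    rw [mul_pow, Real.sq_sqrt (by positivity)] at h3
    exact h3
  rw [div_pow, mul_pow, Real.sq_sqrt (by positivity), div_le_iff₀ (by positivity)]
  linarith

/-- Contracted lines. -/
theorem sepA_line (S : Sv P) {q : Fin N} (hq : (q : ℕ) + 2 = N) : SepA S q := by
  refine sepA_of_iso S q fun g h _ _ => ?_
  obtain ⟨l, hl⟩ : ∃ l : Fin N, (l : ℕ) + 1 = N := ⟨⟨N - 1, by omega⟩, by simp only; omega⟩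
  refine ⟨∑ i, (if i ≤ q then ‖((S.kR g)ᴴ * S.kR h) i l‖ ^ 2 else 0), Finset.sum_nonneg fun i _ => by
    split_ifs <;> positivity, fun v hv => ?_⟩
  have hv' : ∀ i, i ≠ l → v i = 0 := by
    intro i hi
    refine hv i (Fin.le_def.2 ?_)
    have h1 : (i : ℕ) ≠ l := fun e => hi (Fin.ext e)
    have := i.2
    omega
  have h1 : ∑ i, ‖v i‖ ^ 2 = ‖v l‖ ^ 2 := by
    rw [Finset.sum_eq_single l]
    · intro i _ hi
      rw [hv' i hi]
      simp
    · intro h
      exact absurd (Finset.mem_univ l) h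
  rw [h1, Finset.sum_mul]
  refine Finset.sum_congr rfl fun i _ => ?_
  have h2 : (((S.kR g)ᴴ * S.kR h) *ᵥ v) i = ((S.kR g)ᴴ * S.kR h) i l * v l := by
    rw [Matrix.mulVec, dotProduct, Finset.sum_eq_single l]
    · intro j _ hj
      rw [hv' j hj, mul_zero]
    · intro h
      exact absurd (Finset.mem_univ l) h
  rw [h2]
  split_ifs
  · rw [norm_mul, mul_pow]
  · rw [zero_mul]

/-- The representation commutes with the quaternionic structure `v ↦ J conj(v)`. -/
def Quat (P : PH G N) (J : MN N) : Prop :=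
  IsU J ∧ Jᵀ = -J ∧ ∀ γ, P.ι γ * J = J * ((P.ι γ)ᴴ)ᵀ

/-- The matrix of the quaternionic structure in the basis of right singular vectors. -/
noncomputable def mJ (S : Sv P) (J : MN N) (γ : G) : MN N := (S.kR γ)ᴴ * J * ((S.kR γ)ᴴ)ᵀ

theorem mJ_anti (S : Sv P) {J : MN N} (hJ : Quat P J) (γ : G) : (mJ S J γ)ᵀ = -mJ S J γ := by
  unfold mJ
  rw [Matrix.transpose_mul, Matrix.transpose_mul, Matrix.transpose_transpose, hJ.2.1, Matrix.neg_mul,
    Matrix.mul_neg, Matrix.mul_assoc]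

theorem tu {K : MN N} (hK : IsU K) : (Kᴴ)ᵀ * Kᵀ = 1 := by
  rw [← Matrix.transpose_mul, hK.mul_star, Matrix.transpose_one]

theorem tu' {K : MN N} (hK : IsU K) : Kᵀ * (Kᴴ)ᵀ = 1 := by
  rw [← Matrix.transpose_mul, show Kᴴ * K = 1 from hK, Matrix.transpose_one]

theorem mJ_unit (S : Sv P) {J : MN N} (hJ : Quat P J) (γ : G) : IsU (mJ S J γ) := by
  unfold mJ
  refine ((S.uR γ).star.mul hJ.1).mul ?_
  change (((S.kR γ)ᴴ)ᵀ)ᴴ * ((S.kR γ)ᴴ)ᵀ = 1
  have e : (((S.kR γ)ᴴ)ᵀ)ᴴ = (S.kR γ)ᵀ := by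
    ext i j
    simp [Matrix.conjTranspose_apply, Matrix.transpose_apply]
  rw [e, tu' (S.uR γ)]

theorem mJ_comm (S : Sv P) {J : MN N} (hJ : Quat P J) (γ : G) (i j : Fin N) (hij : S.s γ i ≠ S.s γ j) :
    mJ S J γ i j = 0 := by
  have hT : (P.ι γ)ᴴ * J = J * (P.ι γ)ᵀ := by
    have h1 := congrArg Matrix.transpose (hJ.2.2 γ)
    rw [Matrix.transpose_mul, Matrix.transpose_mul, Matrix.transpose_transpose, hJ.2.1, Matrix.neg_mul,
      Matrix.mul_neg] at h1
    exact (neg_injective h1).symm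
  have hH : (P.ι γ)ᴴ * P.ι γ * J = J * ((P.ι γ)ᵀ * ((P.ι γ)ᴴ)ᵀ) := by
    rw [Matrix.mul_assoc, hJ.2.2 γ, ← Matrix.mul_assoc, hT, Matrix.mul_assoc]
  have hD : (P.ι γ)ᴴ * P.ι γ = S.kR γ * diagonal (fun i => ((S.s γ i ^ 2 : ℝ) : ℂ)) * (S.kR γ)ᴴ := by
    rw [S.spec γ]
    have e1 : (diagonal fun i => (S.s γ i : ℂ))ᴴ = (diagonal fun i => (S.s γ i : ℂ) : MN N) := by
      rw [Matrix.diagonal_conjTranspose]
      congr 1
      funext i
      simp
    rw [Matrix.conjTranspose_mul, Matrix.conjTranspose_mul, Matrix.conjTranspose_conjTranspose, e1]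
    have e2 : (S.kL γ)ᴴ * S.kL γ = 1 := S.uL γ
    calc S.kR γ * (diagonal (fun i => (S.s γ i : ℂ)) * (S.kL γ)ᴴ) * (S.kL γ * diagonal (fun i => (S.s γ i : ℂ)) * (S.kR γ)ᴴ)
        = S.kR γ * (diagonal (fun i => (S.s γ i : ℂ)) * ((S.kL γ)ᴴ * S.kL γ) * diagonal (fun i => (S.s γ i : ℂ))) * (S.kR γ)ᴴ := by
          simp only [Matrix.mul_assoc]
      _ = _ := by
          rw [e2, Matrix.mul_one, Matrix.diagonal_mul_diagonal]
          congr 3
          funext i
          push_cast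
          ring
  have hD' : (P.ι γ)ᵀ * ((P.ι γ)ᴴ)ᵀ = ((S.kR γ)ᴴ)ᵀ * diagonal (fun i => ((S.s γ i ^ 2 : ℝ) : ℂ)) * (S.kR γ)ᵀ := by
    have h1 := congrArg Matrix.transpose hD
    rw [Matrix.transpose_mul, Matrix.transpose_mul, Matrix.transpose_mul, Matrix.diagonal_transpose, ← Matrix.mul_assoc] at h1
    exact h1
  rw [hD, hD'] at hH
  have hM : diagonal (fun i => ((S.s γ i ^ 2 : ℝ) : ℂ)) * mJ S J γ = mJ S J γ * diagonal (fun i => ((S.s γ i ^ 2 : ℝ) : ℂ)) := by
    unfold mJ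
    have e2 : (S.kR γ)ᴴ * S.kR γ = 1 := S.uR γ
    calc diagonal (fun i => ((S.s γ i ^ 2 : ℝ) : ℂ)) * ((S.kR γ)ᴴ * J * ((S.kR γ)ᴴ)ᵀ)
        = ((S.kR γ)ᴴ * S.kR γ) * diagonal (fun i => ((S.s γ i ^ 2 : ℝ) : ℂ)) * ((S.kR γ)ᴴ * J * ((S.kR γ)ᴴ)ᵀ) := by
          rw [e2, Matrix.one_mul]
      _ = (S.kR γ)ᴴ * (S.kR γ * diagonal (fun i => ((S.s γ i ^ 2 : ℝ) : ℂ)) * (S.kR γ)ᴴ * J) * ((S.kR γ)ᴴ)ᵀ := by
          simp only [Matrix.mul_assoc]
      _ = (S.kR γ)ᴴ * (J * (((S.kR γ)ᴴ)ᵀ * diagonal (fun i => ((S.s γ i ^ 2 : ℝ) : ℂ)) * (S.kR γ)ᵀ)) * ((S.kR γ)ᴴ)ᵀ := by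
          rw [hH]
      _ = (S.kR γ)ᴴ * J * ((S.kR γ)ᴴ)ᵀ * diagonal (fun i => ((S.s γ i ^ 2 : ℝ) : ℂ)) * ((S.kR γ)ᵀ * ((S.kR γ)ᴴ)ᵀ) := by
          simp only [Matrix.mul_assoc]
      _ = _ := by rw [tu' (S.uR γ), Matrix.mul_one]
  have h1 := congrFun (congrFun hM i) j
  rw [Matrix.diagonal_mul, Matrix.mul_diagonal, mul_comm, ← sub_eq_zero, ← mul_sub] at h1
  rcases mul_eq_zero.1 h1 with h2 | h2
  · exact h2
  · exfalso
    apply hij
    have h3 : S.s γ i ^ 2 = S.s γ j ^ 2 := by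
      have h4 := sub_eq_zero.1 h2
      exact_mod_cast h4
    exact (sq_eq_sq₀ (S.pos _ _).le (S.pos _ _).le).1 h3

theorem mJ_rel (S : Sv P) (J : MN N) (g h : G) :
    ((S.kR g)ᴴ * S.kR h) * mJ S J h = mJ S J g * (((S.kR g)ᴴ * S.kR h)ᴴ)ᵀ := by
  unfold mJ
  have e1 : S.kR h * (S.kR h)ᴴ = 1 := (S.uR h).mul_star
  have e2 : ((S.kR g)ᴴ)ᵀ * (S.kR g)ᵀ = 1 := tu (S.uR g)
  have e3 : (((S.kR g)ᴴ * S.kR h)ᴴ)ᵀ = (S.kR g)ᵀ * ((S.kR h)ᴴ)ᵀ := by
    rw [Matrix.conjTranspose_mul, Matrix.conjTranspose_conjTranspose, Matrix.transpose_mul]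
  rw [e3]
  calc (S.kR g)ᴴ * S.kR h * ((S.kR h)ᴴ * J * ((S.kR h)ᴴ)ᵀ)
      = (S.kR g)ᴴ * (S.kR h * (S.kR h)ᴴ) * J * ((S.kR h)ᴴ)ᵀ := by simp only [Matrix.mul_assoc]
    _ = (S.kR g)ᴴ * J * (((S.kR g)ᴴ)ᵀ * (S.kR g)ᵀ) * ((S.kR h)ᴴ)ᵀ := by rw [e1, e2, Matrix.mul_one, Matrix.mul_one]
    _ = _ := by simp only [Matrix.mul_assoc]

/-- Contracted planes of quaternionic groups. -/
theorem sepA_quat (S : Sv P) {J : MN N} (hJ : Quat P J) {q : Fin N} (hq : (q : ℕ) + 3 = N) : SepA S q := by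
  refine sepA_of_iso S q fun g h hg hh => ?_
  obtain ⟨a, ha⟩ : ∃ a : Fin N, (a : ℕ) = q + 1 := ⟨⟨q + 1, by omega⟩, rfl⟩
  obtain ⟨b, hb⟩ : ∃ b : Fin N, (b : ℕ) = q + 2 := ⟨⟨q + 2, by omega⟩, rfl⟩
  have hab : a ≠ b := by
    intro e
    rw [e] at ha
    omega
  have hcase : ∀ i : Fin N, i ≤ q ∨ i = a ∨ i = b := by
    intro i
    have := i.2
    by_cases h1 : i ≤ q
    · exact Or.inl h1
    · have h2 := Fin.lt_def.1 (not_le.1 h1)
      right
      by_cases h3 : (i : ℕ) = q + 1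
      · exact Or.inl (Fin.ext (by omega))
      · exact Or.inr (Fin.ext (by omega))
  have hqa : ¬ a ≤ q := by
    rw [not_le, Fin.lt_def]
    omega
  have hqb : ¬ b ≤ q := by
    rw [not_le, Fin.lt_def]
    omega
  -- singular values in different blocks are different
  have hne : ∀ γ, 1 < gp S γ q → ∀ i j, i ≤ q → ¬ j ≤ q → S.s γ j < S.s γ i := by
    intro γ hγ i j hi hj
    have h1 := gap_le_ratio S γ hi (not_le.1 hj)
    have h2 := S.pos γ j
    nlinarith
  set U : MN N := (S.kR g)ᴴ * S.kR h with hU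
  set Mh : MN N := mJ S J h with hMh
  set Mg : MN N := mJ S J g with hMg
  have hrel : U * Mh = Mg * (Uᴴ)ᵀ := mJ_rel S J g h
  have hanti : ∀ i j, Mh i j = -Mh j i := fun i j => by
    have h1 := congrFun (congrFun (mJ_anti S hJ h) j) i
    rw [Matrix.transpose_apply, Matrix.neg_apply] at h1
    exact h1
  have hantig : ∀ i j, Mg i j = -Mg j i := fun i j => by
    have h1 := congrFun (congrFun (mJ_anti S hJ g) j) i
    rw [Matrix.transpose_apply, Matrix.neg_apply] at h1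
    exact h1
  have hz : ∀ i, i ≠ a → Mh i b = 0 := by
    intro i hi
    rcases hcase i with h1 | h1 | h1
    · exact mJ_comm S hJ h i b (ne_of_gt (hne h hh i b h1 hqb))
    · exact absurd h1 hi
    · rw [h1]
      have := hanti b b
      have h2 : (2 : ℂ) * Mh b b = 0 := by
        rw [two_mul]
        nth_rewrite 1 [this]
        ring
      simpa using h2
  have hζ : ‖Mh a b‖ = 1 := by
    have h1 := col9 (mJ_unit S hJ h) b
    rw [Finset.sum_eq_single a (fun i _ hi => by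
      change ‖Mh i b‖ ^ 2 = 0
      rw [hz i hi]; simp) (fun h => absurd (Finset.mem_univ a) h)] at h1
    have h2 := norm_nonneg (Mh a b)
    change ‖Mh a b‖ ^ 2 = 1 at h1
    nlinarith
  have hgz : ∀ i j, i ≤ q → ¬ j ≤ q → Mg i j = 0 := fun i j hi hj =>
    mJ_comm S hJ g i j (ne_of_gt (hne g hg i j hi hj))
  -- the relation between the columns
  have hrel' : ∀ i, i ≤ q → U i a * Mh a b = ∑ j, (if j ≤ q then Mg i j * conj (U j b) else 0) := by
    intro i hi
    have h1 := congrFun (congrFun hrel i) b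
    rw [Matrix.mul_apply, Matrix.mul_apply, Finset.sum_eq_single a (fun j _ hj => by rw [hz j hj, mul_zero])
      (fun h => absurd (Finset.mem_univ a) h)] at h1
    rw [h1]
    refine Finset.sum_congr rfl fun j _ => ?_
    rw [Matrix.transpose_apply, Matrix.conjTranspose_apply]
    split_ifs with hj
    · rfl
    · rw [hgz i j hi hj, zero_mul]
  -- orthogonality
  have horth : ∑ i, (if i ≤ q then conj (U i b) * U i a else 0) = 0 := by
    have h1 : (∑ i, (if i ≤ q then conj (U i b) * U i a else 0)) * Mh a b =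
        ∑ i, ∑ j, (if i ≤ q then if j ≤ q then conj (U i b) * Mg i j * conj (U j b) else 0 else 0) := by
      rw [Finset.sum_mul]
      refine Finset.sum_congr rfl fun i _ => ?_
      by_cases hi : i ≤ q
      · rw [if_pos hi]
        simp only [if_pos hi]
        rw [mul_assoc, hrel' i hi, Finset.mul_sum]
        refine Finset.sum_congr rfl fun j _ => ?_
        split_ifs
        · ring
        · rw [mul_zero]
      · rw [if_neg hi]
        simp [hi]
    have h2 : ∑ i, ∑ j, (if i ≤ q then if j ≤ q then conj (U i b) * Mg i j * conj (U j b) else 0 else 0) =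
        -∑ i, ∑ j, (if i ≤ q then if j ≤ q then conj (U i b) * Mg i j * conj (U j b) else 0 else 0) := by
      conv_lhs => rw [Finset.sum_comm]
      rw [← Finset.sum_neg_distrib]
      refine Finset.sum_congr rfl fun i _ => ?_
      rw [← Finset.sum_neg_distrib]
      refine Finset.sum_congr rfl fun j _ => ?_
      by_cases hi : i ≤ q <;> by_cases hj : j ≤ q
      · simp only [if_pos hi, if_pos hj]
        rw [hantig j i]
        ring
      · simp [hi, hj]
      · simp [hi, hj]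
      · simp [hi, hj]
    have h3 : ∑ i, ∑ j, (if i ≤ q then if j ≤ q then conj (U i b) * Mg i j * conj (U j b) else 0 else 0) = 0 := by
      have h4 := eq_neg_iff_add_eq_zero.1 h2
      rw [← two_mul] at h4
      rcases mul_eq_zero.1 h4 with h5 | h5
      · norm_num at h5
      · exact h5
    rw [h3] at h1
    rcases mul_eq_zero.1 h1 with h5 | h5
    · exact h5
    · rw [h5, norm_zero] at hζ
      norm_num at hζ
  -- the norms of the columns are equal
  have hnorm : ∑ i, (if i ≤ q then ‖U i a‖ ^ 2 else 0) = ∑ i, (if i ≤ q then ‖U i b‖ ^ 2 else 0) := by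
    -- apply the unitary matrix `Mg` to the first part of the conjugate of the column `b`
    have h1 := nrm_unit (mJ_unit S hJ g) (fun j => if j ≤ q then conj (U j b) else 0)
    have h2 : ∑ i, ‖(if i ≤ q then conj (U i b) else 0 : ℂ)‖ ^ 2 = ∑ i, (if i ≤ q then ‖U i b‖ ^ 2 else 0) := by
      refine Finset.sum_congr rfl fun i _ => ?_
      split_ifs
      · rw [RCLike.norm_conj]
      · simp
    rw [h2] at h1
    rw [← h1]
    refine Finset.sum_congr rfl fun i _ => ?_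
    have h3 : ((mJ S J g) *ᵥ fun j => if j ≤ q then conj (U j b) else 0) i =
        ∑ j, (if j ≤ q then Mg i j * conj (U j b) else 0) := by
      rw [Matrix.mulVec, dotProduct]
      refine Finset.sum_congr rfl fun j _ => ?_
      split_ifs
      · rfl
      · rw [mul_zero]
    rw [h3]
    by_cases hi : i ≤ q
    · rw [if_pos hi, ← hrel' i hi, norm_mul, hζ, mul_one]
    · rw [if_neg hi]
      have h4 : ∑ j, (if j ≤ q then Mg i j * conj (U j b) else 0) = 0 := by
        refine Finset.sum_eq_zero fun j _ => ?_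
        split_ifs with hj
        · rw [hantig i j, hgz j i hj hi, neg_zero, zero_mul]
        · rfl
      rw [h4]
      simp
  refine ⟨∑ i, (if i ≤ q then ‖U i a‖ ^ 2 else 0), Finset.sum_nonneg fun i _ => by
    split_ifs <;> positivity, fun v hv => ?_⟩
  have hv2 : ∑ i, ‖v i‖ ^ 2 = ‖v a‖ ^ 2 + ‖v b‖ ^ 2 := by
    rw [← Finset.add_sum_erase Finset.univ _ (Finset.mem_univ a),
      ← Finset.add_sum_erase _ _ (Finset.mem_erase.2 ⟨hab.symm, Finset.mem_univ b⟩), Finset.sum_eq_zero, add_zero]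
    intro i hi
    rw [Finset.mem_erase, Finset.mem_erase] at hi
    rcases hcase i with h1 | h1 | h1
    · rw [hv i h1]
      simp
    · exact absurd h1 hi.2.1
    · exact absurd h1 hi.1
  have hUv : ∀ i, (U *ᵥ v) i = U i a * v a + U i b * v b := by
    intro i
    rw [Matrix.mulVec, dotProduct, ← Finset.add_sum_erase Finset.univ _ (Finset.mem_univ a),
      ← Finset.add_sum_erase _ _ (Finset.mem_erase.2 ⟨hab.symm, Finset.mem_univ b⟩), Finset.sum_eq_zero, add_zero]
    intro j hj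
    rw [Finset.mem_erase, Finset.mem_erase] at hj
    rcases hcase j with h1 | h1 | h1
    · rw [hv j h1, mul_zero]
    · exact absurd h1 hj.2.1
    · exact absurd h1 hj.1
  have hexp : ∀ i, ‖(U *ᵥ v) i‖ ^ 2 = ‖U i a‖ ^ 2 * ‖v a‖ ^ 2 + ‖U i b‖ ^ 2 * ‖v b‖ ^ 2 +
      2 * (conj (U i b) * U i a * (v a * conj (v b))).re := by
    intro i
    rw [hUv i]
    have h1 : ∀ x y : ℂ, ‖x + y‖ ^ 2 = ‖x‖ ^ 2 + ‖y‖ ^ 2 + 2 * (x * conj y).re := by
      intro x y
      rw [← Complex.normSq_eq_norm_sq, ← Complex.normSq_eq_norm_sq, ← Complex.normSq_eq_norm_sq, Complex.normSq_add]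
    rw [h1, norm_mul, norm_mul, mul_pow, mul_pow]
    congr 3
    rw [map_mul]
    ring
  calc ∑ i, (if i ≤ q then ‖(U *ᵥ v) i‖ ^ 2 else 0)
      = ∑ i, ((if i ≤ q then ‖U i a‖ ^ 2 else 0) * ‖v a‖ ^ 2 + (if i ≤ q then ‖U i b‖ ^ 2 else 0) * ‖v b‖ ^ 2 +
          2 * ((if i ≤ q then conj (U i b) * U i a else 0) * (v a * conj (v b))).re) := by
        refine Finset.sum_congr rfl fun i _ => ?_
        split_ifs
        · exact hexp i
        · simp
    _ = (∑ i, (if i ≤ q then ‖U i a‖ ^ 2 else 0)) * ‖v a‖ ^ 2 + (∑ i, (if i ≤ q then ‖U i b‖ ^ 2 else 0)) * ‖v b‖ ^ 2 +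
          2 * ((∑ i, (if i ≤ q then conj (U i b) * U i a else 0)) * (v a * conj (v b))).re := by
        rw [Finset.sum_add_distrib, Finset.sum_add_distrib, ← Finset.sum_mul, ← Finset.sum_mul]
        congr 1
        rw [Finset.sum_mul, Complex.re_sum, Finset.mul_sum]
    _ = _ := by
        rw [horth, ← hnorm, hv2, zero_mul]
        simp
        ring

end Pool.Agent.Helper9.QH
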