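import Pool.Agent.Helper9.QH.Q3
import Pool.Agent.Helper9.QH.Q4
import Pool.Agent.Helper9.S3X.C2
import Pool.Agent.Helper43.TA.Geo

/-!
# Project QH (MP_0f6f3f_an): nonamenable groups which reach an extreme gap reach two gaps

`reach_lq`: if a nonamenable group reaches the gap after `q` (`SepA S q`, more than half of the singular values are not contracted) then it reaches two gaps. `reach_fq`: the same for the first gaps.
`reach_quat`: quaternionic groups: the extreme nontrivial gaps are those with the indices `1` and `N - 3`.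
-/

set_option autoImplicit false
set_option linter.unusedSectionVars false

open Filter Topology Matrix MeasureTheory
open scoped ComplexConjugate

namespace Pool.Agent.Helper9.QH

open Pool.Agent.Helper84.NI Pool.Agent.Helper84.GVN Pool.Agent.Helper90.RK Pool.Agent.Helper96.RK Pool.Agent.Helper84.GN.S3
open Pool.Agent.Helper84.GN.S3.X
open Pool.Agent.Helper66.FR Pool.Agent.Helper84.FR Pool.Agent.Helper55.FR
open Pool.Agent.Helper43.TA (TwoL GapL)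

section Geo

variable {G : Type} [Group G] {N : ℕ} {P : PH G N}

theorem gap_sub (S : Sv P) (q : Fin N) {R0 n m R : ℕ} (h1 : R0 ≤ n) (h2 : m * (1 + N * n) ≤ R) (h3 : R0 ≤ R) :
    GapL S q R \ {γ | (R0 : ℝ) < lg S γ q ∧ ∃ i, i ≠ q ∧ (R0 : ℝ) < lg S γ i} ⊆
      WC S (Finset.univ.erase q) n ∩ TC S [Finset.univ.erase q] m := by
  rintro γ ⟨g1, g2⟩
  have g1' : (R : ℝ) < lg S γ q := g1
  have hR0 : (R0 : ℝ) ≤ R := by exact_mod_cast h3
  have hn : (R0 : ℝ) ≤ n := by exact_mod_cast h1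
  have hg : ∀ i, i ≠ q → lg S γ i ≤ n := by
    intro i hi
    by_contra hcon
    push Not at hcon
    exact g2 ⟨lt_of_le_of_lt hR0 g1', i, hi, lt_of_le_of_lt hn hcon⟩
  refine ⟨fun i hi => hg i (Finset.mem_erase.1 hi).1, ?_⟩
  intro I hI j hjI
  rw [List.mem_singleton] at hI
  subst hI
  have hj2 : j = q := by
    by_contra hcon
    exact hjI (Finset.mem_erase.2 ⟨hcon, Finset.mem_univ _⟩)
  subst hj2
  have hsum : ∑ i ∈ Finset.univ.erase j, lg S γ i ≤ (N : ℝ) * n := by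
    calc ∑ i ∈ Finset.univ.erase j, lg S γ i ≤ ∑ _i ∈ Finset.univ.erase j, (n : ℝ) :=
          Finset.sum_le_sum fun i hi => hg i (Finset.mem_erase.1 hi).1
      _ = ((Finset.univ.erase j).card : ℝ) * n := by rw [Finset.sum_const, nsmul_eq_mul]
      _ ≤ (N : ℝ) * n := by
          have h4 : ((Finset.univ.erase j).card : ℝ) ≤ N := by
            have := Finset.card_le_univ (Finset.univ.erase j)
            rw [Fintype.card_fin] at this
            exact_mod_cast this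
          exact mul_le_mul_of_nonneg_right h4 (Nat.cast_nonneg n)
  have h5 : ((m : ℝ) * (1 + N * n)) ≤ R := by exact_mod_cast h2
  refine le_trans (mul_le_mul_of_nonneg_left ?_ (Nat.cast_nonneg m)) (h5.trans g1'.le)
  linarith

theorem Kq_lg (S : Sv P) (q : Fin N) (R : ℕ) :
    Kq S q (Real.exp R) ⊆ {γ | (R : ℝ) < lg S γ q ∧ ∃ i, i ≠ q ∧ (R : ℝ) < lg S γ i} := by
  rintro γ ⟨h1, i, hi, h2⟩
  rw [gp_eq_exp] at h1 h2
  exact ⟨Real.exp_lt_exp.1 h1, i, hi, Real.exp_lt_exp.1 h2⟩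

end Geo

section Ind

variable {G X : Type} [MeasurableSpace X] {μ : Measure X} [IsProbabilityMeasure μ]

theorem clind_mono9 {A B : Set G} (h : A ⊆ B) (f : XL μ (L2 G)) :
    ‖cl μ (ind ℂ A) f‖ ≤ ‖cl μ (ind ℂ B) f‖ := by
  have h1 := cl_ind_ind A B f
  rw [Set.inter_eq_left.2 h] at h1
  rw [← h1]
  have h2 := norm_cl_le_of (μ := μ) (T := ind ℂ A) (C := 1) zero_le_one (fun x => by
    rw [one_mul]
    exact norm_ind2 _ _) (cl μ (ind ℂ B) f)
  rwa [one_mul] at h2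

theorem clind_split9 (A B : Set G) (f : XL μ (L2 G)) :
    cl μ (ind ℂ A) f = cl μ (ind ℂ (A \ B)) f + cl μ (ind ℂ (A ∩ B)) f := by
  classical
  have h1 : (ind ℂ A : L2 G →L[ℂ] L2 G) = ind ℂ (A \ B) + ind ℂ (A ∩ B) := by
    ext1 v
    apply lv_ext
    intro i
    have h : ((ind ℂ (A \ B) + ind ℂ (A ∩ B) : L2 G →L[ℂ] L2 G) v) i = ind ℂ (A \ B) v i + ind ℂ (A ∩ B) v i := rfl
    rw [h, ind_apply, ind_apply, ind_apply]
    by_cases h1 : i ∈ A <;> by_cases h2 : i ∈ B <;> simp [h1, h2]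
  rw [h1, cl_add]
  rfl

end Ind

variable {G1 X G Λ : Type} [Group G1] [MeasurableSpace X] [MulAction G1 X] [MeasurableConstSMul G1 X]
  [Group G] [Group Λ] [Countable Λ] {μ : Measure X} [SMulInvariantMeasure G1 X μ] [IsProbabilityMeasure μ]
  {a : Cocy G1 X Λ} {E : Emb Λ G} {N : ℕ} {P : PH G N}

/-- If a nonamenable group reaches the gap after `q` then it reaches this gap and another one. -/
theorem reach_lq' (S : Sv P) {q : Fin N} (hS : SepA S q) (hq : (q : ℕ) + 1 < N) (hmk : N < 2 * ((q : ℕ) + 1))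
    (F : Subgroup G1) [Countable F] (hF : NonAm F)
    (p : X → Λ → F) (hp : ∀ l g, MeasurableSet {x | p x l = g})
    (hpe : ∀ (f : F) (x : X) (l : Λ), p ((f : G1) • x) (a.a f x * l) = f * p x l) {β : ℝ} (hβ : 0 < β)
    (hL : ∀ R : ℕ, ∃ f ∈ F, β ≤ ‖cl μ (ind ℂ (GapL S q R)) (zx μ a E f)‖) :
    ∃ β' : ℝ, 0 < β' ∧ ∀ R : ℕ, ∃ f ∈ F,
      β' ≤ ‖cl μ (ind ℂ {γ | (R : ℝ) < lg S γ q ∧ ∃ i, i ≠ q ∧ (R : ℝ) < lg S γ i}) (zx μ a E f)‖ := by
  by_contra hcon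
  push Not at hcon
  obtain ⟨R0, hR0⟩ := hcon (β / 2) (by linarith)
  -- a component of type `{q}`
  choose b hbF he using fun m : ℕ => hL (max R0 (m * (1 + N * R0)))
  have h0 : XPpr (Pool.Agent.Helper84.GN.toReg (chStr S (Finset.univ.erase q) [])) (vec μ a E b) ≠ 0 := by
    have key := Ppr_of_massX (μ := μ) S (Finset.univ.erase q) (z := fun g : G1 => zx μ a E g) (hz := fun g => zx_bound g)
      (b := b) (β := β / 2) (r := R0) (by linarith) ?_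
    · exact key
    intro m
    have hsub := gap_sub S q (R0 := R0) (n := R0) (m := m) le_rfl (le_max_right R0 (m * (1 + N * R0)))
      (le_max_left _ _)
    refine le_trans ?_ (clind_mono9 hsub _)
    have h1 := he m
    rw [clind_split9 _ {γ | (R0 : ℝ) < lg S γ q ∧ ∃ i, i ≠ q ∧ (R0 : ℝ) < lg S γ i}] at h1
    have h2 := h1.trans (norm_add_le _ _)
    have h3 := (clind_mono9 (μ := μ) (Set.inter_subset_right (s := GapL S q (max R0 (m * (1 + N * R0))))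
      (t := {γ | (R0 : ℝ) < lg S γ q ∧ ∃ i, i ≠ q ∧ (R0 : ℝ) < lg S γ i})) (zx μ a E (b m))).trans (hR0 (b m) (hbF m)).le
    linarith
  obtain ⟨β', hβ', h⟩ := reach_q S hS hq hmk F hF p hp hpe hbF h0
  obtain ⟨R1, hR1⟩ := hcon β' hβ'
  obtain ⟨f, hf, hf2⟩ := h (Real.exp R1)
  exact absurd (hf2.trans (clind_mono9 (Kq_lg S q R1) _)) (not_le.2 (hR1 f hf))

theorem reach_lq (S : Sv P) {q : Fin N} (hS : SepA S q) (hq : (q : ℕ) + 1 < N) (hmk : N < 2 * ((q : ℕ) + 1))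
    (F : Subgroup G1) [Countable F] (hF : NonAm F)
    (p : X → Λ → F) (hp : ∀ l g, MeasurableSet {x | p x l = g})
    (hpe : ∀ (f : F) (x : X) (l : Λ), p ((f : G1) • x) (a.a f x * l) = f * p x l) {β : ℝ} (hβ : 0 < β)
    (hL : ∀ R : ℕ, ∃ f ∈ F, β ≤ ‖cl μ (ind ℂ (GapL S q R)) (zx μ a E f)‖) :
    ∃ β' : ℝ, 0 < β' ∧ ∀ R : ℕ, ∃ f ∈ F, β' ≤ ‖cl μ (ind ℂ (TwoL S R)) (zx μ a E f)‖ := by
  obtain ⟨β', hβ', h⟩ := reach_lq' S hS hq hmk F hF p hp hpe hβ hL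
  refine ⟨β', hβ', fun R => ?_⟩
  obtain ⟨f, hf, hf2⟩ := h R
  refine ⟨f, hf, hf2.trans (clind_mono9 ?_ _)⟩
  rintro γ ⟨h1, i, hi, h2⟩
  exact ⟨q, i, hi.symm, h1, h2⟩

theorem lg_inv (S : Sv P) (γ : G) {i j : Fin N} (h : (i : ℕ) + j + 2 = N) : lg S γ⁻¹ i = lg S γ j := by
  unfold lg
  rw [gp_inv S γ h]

/-- If a nonamenable group reaches one of the first gaps then it reaches two gaps. -/
theorem reach_fq (S : Sv P) {q p' : Fin N} (hpq : (p' : ℕ) + q + 2 = N) (hS : SepA S q) (hq : (q : ℕ) + 1 < N)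
    (hmk : N < 2 * ((q : ℕ) + 1)) (F : Subgroup G1) [Countable F] (hF : NonAm F)
    (p : X → Λ → F) (hp : ∀ l g, MeasurableSet {x | p x l = g})
    (hpe : ∀ (f : F) (x : X) (l : Λ), p ((f : G1) • x) (a.a f x * l) = f * p x l) {β : ℝ} (hβ : 0 < β)
    (hL : ∀ R : ℕ, ∃ f ∈ F, β ≤ ‖cl μ (ind ℂ (GapL S p' R)) (zx μ a E f)‖) :
    ∃ β' : ℝ, 0 < β' ∧ ∀ R : ℕ, ∃ f ∈ F, β' ≤ ‖cl μ (ind ℂ (TwoL S R)) (zx μ a E f)‖ := by
  refine reach_lq S hS hq hmk F hF p hp hpe hβ fun R => ?_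
  obtain ⟨f, hf, hl⟩ := hL R
  refine ⟨f⁻¹, F.inv_mem hf, ?_⟩
  rw [mass_invX]
  have h1 : {γ | γ⁻¹ ∈ GapL S q R} = GapL S p' R := by
    ext γ
    change (R : ℝ) < lg S γ⁻¹ q ↔ (R : ℝ) < lg S γ p'
    rw [lg_inv S γ (i := q) (j := p') (by omega)]
  rw [h1]
  exact hl

/-- Quaternionic groups: the extreme nontrivial gaps. -/
theorem reach_quat (S : Sv P) {J : MN N} (hJ : Quat P J) (hN : 5 ≤ N) {q : Fin N} (hq : (q : ℕ) = 1 ∨ (q : ℕ) + 3 = N)
    (F : Subgroup G1) [Countable F] (hF : NonAm F)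
    (p : X → Λ → F) (hp : ∀ l g, MeasurableSet {x | p x l = g})
    (hpe : ∀ (f : F) (x : X) (l : Λ), p ((f : G1) • x) (a.a f x * l) = f * p x l) {β : ℝ} (hβ : 0 < β)
    (hL : ∀ R : ℕ, ∃ f ∈ F, β ≤ ‖cl μ (ind ℂ (GapL S q R)) (zx μ a E f)‖) :
    ∃ β' : ℝ, 0 < β' ∧ ∀ R : ℕ, ∃ f ∈ F, β' ≤ ‖cl μ (ind ℂ (TwoL S R)) (zx μ a E f)‖ := by
  obtain ⟨q0, hq0⟩ : ∃ q0 : Fin N, (q0 : ℕ) + 3 = N := ⟨⟨N - 3, by omega⟩, by simp only; omega⟩
  rcases hq with hq | hq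
  · exact reach_fq S (q := q0) (p' := q) (by omega) (sepA_quat S hJ hq0) (by omega) (by omega) F hF p hp hpe hβ hL
  · exact reach_lq S (sepA_quat S hJ hq) (by omega) (by omega) F hF p hp hpe hβ hL

/-- Complex groups: the extreme gaps. -/
theorem reach_line (S : Sv P) (hN : 3 ≤ N) {q : Fin N} (hq : (q : ℕ) = 0 ∨ (q : ℕ) + 2 = N)
    (F : Subgroup G1) [Countable F] (hF : NonAm F)
    (p : X → Λ → F) (hp : ∀ l g, MeasurableSet {x | p x l = g})
    (hpe : ∀ (f : F) (x : X) (l : Λ), p ((f : G1) • x) (a.a f x * l) = f * p x l) {β : ℝ} (hβ : 0 < β)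
    (hL : ∀ R : ℕ, ∃ f ∈ F, β ≤ ‖cl μ (ind ℂ (GapL S q R)) (zx μ a E f)‖) :
    ∃ β' : ℝ, 0 < β' ∧ ∀ R : ℕ, ∃ f ∈ F, β' ≤ ‖cl μ (ind ℂ (TwoL S R)) (zx μ a E f)‖ := by
  obtain ⟨q0, hq0⟩ : ∃ q0 : Fin N, (q0 : ℕ) + 2 = N := ⟨⟨N - 2, by omega⟩, by simp only; omega⟩
  rcases hq with hq | hq
  · exact reach_fq S (q := q0) (p' := q) (by omega) (sepA_line S hq0) (by omega) (by omega) F hF p hp hpe hβ hL
  · exact reach_lq S (sepA_line S hq) (by omega) (by omega) F hF p hp hpe hβ hL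

end Pool.Agent.Helper9.QH
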