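import Pool.Agent.Helper9.S3.F0

/-!
# Project QH (MP_0f6f3f_an): contracted subspaces of dimension larger than one, singular values of products

`SepA S q`: separated contracted subspaces (of the type with the only large gap after `q`) have all their principal angles bounded below. True for lines, and for quaternionic lines.
`Tq S q r L`: the elements with large gap (at least `L`) after `q` and bounded ratios inside the two blocks. `s_low`, `s_up`, `s_top`: bounds for the singular values of `g h⁻¹`.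
-/

set_option autoImplicit false

open Filter Topology Matrix
open scoped ComplexConjugate

namespace Pool.Agent.Helper9.QH

open Pool.Agent.Helper84.NI Pool.Agent.Helper84.GVN Pool.Agent.Helper90.RK Pool.Agent.Helper96.RK Pool.Agent.Helper84.GN.S3

variable {G : Type} [Group G] {N : ℕ} {P : PH G N}

/-- Separated contracted subspaces have all their principal angles bounded below. -/
def SepA (S : Sv P) (q : Fin N) : Prop :=
  ∀ δ : ℝ, 0 < δ → ∃ c : ℝ, 0 < c ∧ ∀ g h : G, 1 < gp S g q → 1 < gp S h q →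
    δ ≤ pdist S (bJ (Finset.univ.erase q)) g h → ∀ v : Fin N → ℂ, (∀ i, i ≤ q → v i = 0) →
      c ^ 2 * ∑ i, ‖v i‖ ^ 2 ≤ ∑ i, if i ≤ q then ‖(((S.kR g)ᴴ * S.kR h) *ᵥ v) i‖ ^ 2 else 0

/-- Large gap after `q`, bounded ratios inside the blocks. -/
def Tq (S : Sv P) (q : Fin N) (r L : ℝ) : Set G :=
  {γ | (∀ i j, i ≤ q → j ≤ q → S.s γ i ≤ r * S.s γ j) ∧ (∀ i j, q < i → q < j → S.s γ i ≤ r * S.s γ j) ∧
    ∀ i j, i ≤ q → q < j → L * S.s γ j ≤ S.s γ i}

theorem exists_ker (M : MN N) (I I' : Finset (Fin N)) (h : I'.card < I.card) :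
    ∃ v : Fin N → ℂ, v ≠ 0 ∧ (∀ i, i ∉ I → v i = 0) ∧ ∀ i ∈ I', (M *ᵥ v) i = 0 := by
  classical
  let emb : (I → ℂ) →ₗ[ℂ] (Fin N → ℂ) :=
    { toFun := fun x i => if h : i ∈ I then x ⟨i, h⟩ else 0
      map_add' := fun x y => by
        funext i
        by_cases hi : i ∈ I <;> simp [hi]
      map_smul' := fun c x => by
        funext i
        by_cases hi : i ∈ I <;> simp [hi] }
  let f : (I → ℂ) →ₗ[ℂ] (I' → ℂ) :=
    (LinearMap.funLeft ℂ ℂ (Subtype.val : I' → Fin N)) ∘ₗ M.mulVecLin ∘ₗ emb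
  have hk : LinearMap.ker f ≠ ⊥ := LinearMap.ker_ne_bot_of_finrank_lt (by
    rw [Module.finrank_fintype_fun_eq_card, Module.finrank_fintype_fun_eq_card, Fintype.card_coe, Fintype.card_coe]
    exact h)
  obtain ⟨x, hx, hx0⟩ := (Submodule.ne_bot_iff _).1 hk
  refine ⟨emb x, ?_, ?_, ?_⟩
  · intro h0
    apply hx0
    funext i
    have h1 := congrFun h0 i
    have h2 : emb x i = x i := by
      change (if h : (i : Fin N) ∈ I then x ⟨i, h⟩ else 0) = x i
      rw [dif_pos i.2]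
    rw [h2] at h1
    exact h1
  · intro i hi
    change (if h : i ∈ I then x ⟨i, h⟩ else 0) = 0
    rw [dif_neg hi]
  · intro i hi
    have h1 := congrFun (LinearMap.mem_ker.1 hx) ⟨i, hi⟩
    exact h1

theorem nrm_unit {k : MN N} (hk : IsU k) (x : Fin N → ℂ) :
    ∑ i, ‖(k *ᵥ x) i‖ ^ 2 = ∑ i, ‖x i‖ ^ 2 := by
  have h := sum_mulVec_unitary hk.star x
  rwa [Matrix.conjTranspose_conjTranspose] at h

theorem nrm_iota (S : Sv P) (γ : G) (w : Fin N → ℂ) :
    ∑ i, ‖(P.ι γ *ᵥ w) i‖ ^ 2 = ∑ i, S.s γ i ^ 2 * ‖((S.kR γ)ᴴ *ᵥ w) i‖ ^ 2 := by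
  rw [S.spec γ, ← Matrix.mulVec_mulVec, ← Matrix.mulVec_mulVec, nrm_unit (S.uL γ)]
  refine Finset.sum_congr rfl fun i _ => ?_
  rw [Matrix.mulVec_diagonal, norm_mul, mul_pow, Complex.norm_real, Real.norm_of_nonneg (S.pos γ i).le]

/-- The main identity for the product `γ h = g`. -/
theorem key_id (S : Sv P) {γ h g : G} (hg : γ * h = g) (z : Fin N → ℂ) :
    ∑ i, S.s g i ^ 2 * ‖(((S.kR g)ᴴ * S.kR h) *ᵥ z) i‖ ^ 2 =
      ∑ i, S.s γ i ^ 2 * ‖(((S.kR γ)ᴴ * S.kL h) *ᵥ (fun j => (S.s h j : ℂ) * z j)) i‖ ^ 2 := by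
  have h1 := nrm_iota S g (S.kR h *ᵥ z)
  rw [Matrix.mulVec_mulVec z (S.kR g)ᴴ (S.kR h)] at h1
  rw [← h1]
  obtain ⟨c, hc, hm⟩ := P.mul' γ h
  rw [hg] at hm
  have h2 : P.ι h *ᵥ (S.kR h *ᵥ z) = S.kL h *ᵥ (fun j => (S.s h j : ℂ) * z j) := by
    rw [S.spec h, ← Matrix.mulVec_mulVec, ← Matrix.mulVec_mulVec, Matrix.mulVec_mulVec z]
    have e : (S.kR h)ᴴ * S.kR h = 1 := S.uR h
    rw [e, Matrix.one_mulVec]
    congr 1
    funext j
    rw [Matrix.mulVec_diagonal]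
  have h3 : P.ι g *ᵥ (S.kR h *ᵥ z) = c • (P.ι γ *ᵥ (S.kL h *ᵥ (fun j => (S.s h j : ℂ) * z j))) := by
    rw [hm, Matrix.smul_mulVec, ← Matrix.mulVec_mulVec, h2]
  rw [h3]
  have h4 := nrm_iota S γ (S.kL h *ᵥ (fun j => (S.s h j : ℂ) * z j))
  rw [Matrix.mulVec_mulVec _ (S.kR γ)ᴴ] at h4
  rw [← h4]
  refine Finset.sum_congr rfl fun i _ => ?_
  rw [Pi.smul_apply, norm_smul, hc, one_mul]

theorem sum_pos_of_ne {v : Fin N → ℂ} (hv : v ≠ 0) : 0 < ∑ i, ‖v i‖ ^ 2 := by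
  obtain ⟨i, hi⟩ := Function.ne_iff.mp hv
  refine Finset.sum_pos' (fun _ _ => by positivity) ⟨i, Finset.mem_univ i, ?_⟩
  have : 0 < ‖v i‖ := norm_pos_iff.2 hi
  positivity

theorem le_of_sq {a b t : ℝ} (ht : 0 < t) (hb : 0 ≤ b) (h : a ^ 2 * t ≤ b ^ 2 * t) : a ≤ b := by
  have h1 := le_of_mul_le_mul_right h ht
  nlinarith [abs_le_of_sq_le_sq' h1 hb]

variable (S : Sv P)

/-- The first singular values of the product are large. -/
theorem s_low {q q1 p : Fin N} (hq1 : (q1 : ℕ) = q + 1) (hp : (p : ℕ) + q + 2 = N) {γ h g : G} (hg : γ * h = g) {c : ℝ}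
    (hc : ∀ v : Fin N → ℂ, (∀ i, i ≤ q → v i = 0) →
      c ^ 2 * ∑ i, ‖v i‖ ^ 2 ≤ ∑ i, if i ≤ q then ‖(((S.kR g)ᴴ * S.kR h) *ᵥ v) i‖ ^ 2 else 0) :
    c * S.s g q ≤ S.s γ p * S.s h q1 := by
  classical
  -- the matrix `B D_h`
  set B : MN N := (S.kR γ)ᴴ * S.kL h with hB
  have hBU : IsU B := (S.uR γ).star.mul (S.uL h)
  have hcard : (Finset.univ.filter fun i : Fin N => i < p).card < (Finset.univ.filter fun i : Fin N => q < i).card := by
    have e1 : (Finset.univ.filter fun i : Fin N => i < p) = Finset.Iio p := by ext; simp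
    have e2 : (Finset.univ.filter fun i : Fin N => q < i) = Finset.Ioi q := by ext; simp
    rw [e1, e2, Fin.card_Iio, Fin.card_Ioi]
    omega
  obtain ⟨z, hz0, hz1, hz2⟩ := exists_ker (B * diagonal fun j => (S.s h j : ℂ)) _ _ hcard
  have hz1' : ∀ i, i ≤ q → z i = 0 := fun i hi => hz1 i (by simpa using hi)
  have hBz : (B * diagonal fun j => (S.s h j : ℂ)) *ᵥ z = B *ᵥ (fun j => (S.s h j : ℂ) * z j) := by
    rw [← Matrix.mulVec_mulVec]
    congr 1
    funext j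
    rw [Matrix.mulVec_diagonal]
  have hid := key_id S hg z
  have hzp := sum_pos_of_ne hz0
  refine le_of_sq hzp (mul_nonneg (S.pos _ _).le (S.pos _ _).le) ?_
  -- left side
  have h1 : (c * S.s g q) ^ 2 * ∑ i, ‖z i‖ ^ 2 ≤ ∑ i, S.s g i ^ 2 * ‖(((S.kR g)ᴴ * S.kR h) *ᵥ z) i‖ ^ 2 := by
    calc (c * S.s g q) ^ 2 * ∑ i, ‖z i‖ ^ 2 = S.s g q ^ 2 * (c ^ 2 * ∑ i, ‖z i‖ ^ 2) := by ring
      _ ≤ S.s g q ^ 2 * ∑ i, (if i ≤ q then ‖(((S.kR g)ᴴ * S.kR h) *ᵥ z) i‖ ^ 2 else 0) :=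
          mul_le_mul_of_nonneg_left (hc z hz1') (by positivity)
      _ ≤ _ := by
          rw [Finset.mul_sum]
          refine Finset.sum_le_sum fun i _ => ?_
          split_ifs with hi
          · have := S.anti g hi
            have := S.pos g q
            gcongr
          · rw [mul_zero]
            positivity
  -- right side
  have h2 : ∑ i, S.s γ i ^ 2 * ‖(B *ᵥ (fun j => (S.s h j : ℂ) * z j)) i‖ ^ 2 ≤
      (S.s γ p * S.s h q1) ^ 2 * ∑ i, ‖z i‖ ^ 2 := by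
    calc ∑ i, S.s γ i ^ 2 * ‖(B *ᵥ (fun j => (S.s h j : ℂ) * z j)) i‖ ^ 2
        ≤ ∑ i, S.s γ p ^ 2 * ‖(B *ᵥ (fun j => (S.s h j : ℂ) * z j)) i‖ ^ 2 := by
          refine Finset.sum_le_sum fun i _ => ?_
          by_cases hi : i < p
          · have e := hz2 i (by simpa using hi)
            rw [hBz] at e
            rw [e]
            simp
          · have := S.anti γ (not_lt.1 hi)
            have := S.pos γ i
            gcongr
      _ = S.s γ p ^ 2 * ∑ i, ‖(S.s h i : ℂ) * z i‖ ^ 2 := by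
          rw [← Finset.mul_sum, nrm_unit hBU]
      _ ≤ S.s γ p ^ 2 * ∑ i, S.s h q1 ^ 2 * ‖z i‖ ^ 2 := by
          refine mul_le_mul_of_nonneg_left (Finset.sum_le_sum fun i _ => ?_) (by positivity)
          rw [norm_mul, mul_pow, Complex.norm_real, Real.norm_of_nonneg (S.pos h i).le]
          by_cases hi : i ≤ q
          · rw [hz1' i hi]
            simp
          · have h3 : q1 ≤ i := by
              rw [Fin.le_def]
              have := Fin.lt_def.1 (not_le.1 hi)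
              omega
            have := S.anti h h3
            have := S.pos h i
            gcongr
      _ = _ := by
          rw [← Finset.mul_sum]
          ring
  exact h1.trans (hid.le.trans h2)

/-- The next singular value of the product is smaller. -/
theorem s_up {o q p p1 : Fin N} (ho : (o : ℕ) = 0) (hp1 : (p1 : ℕ) = p + 1) (hp : (p : ℕ) + q + 2 = N) {γ h g : G}
    (hg : γ * h = g) : S.s γ p1 * S.s h q ≤ S.s g o := by
  classical
  set B : MN N := (S.kR γ)ᴴ * S.kL h with hB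
  have hBU : IsU B := (S.uR γ).star.mul (S.uL h)
  have hcard : (Finset.univ.filter fun i : Fin N => q < i).card < (Finset.univ.filter fun i : Fin N => i ≤ p1).card := by
    have e1 : (Finset.univ.filter fun i : Fin N => i ≤ p1) = Finset.Iic p1 := by ext; simp
    have e2 : (Finset.univ.filter fun i : Fin N => q < i) = Finset.Ioi q := by ext; simp
    rw [e1, e2, Fin.card_Iic, Fin.card_Ioi]
    omega
  obtain ⟨y, hy0, hy1, hy2⟩ := exists_ker Bᴴ _ _ hcard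
  have hyp := sum_pos_of_ne hy0
  obtain ⟨z, hz⟩ : ∃ z : Fin N → ℂ, z = fun j => ((S.s h j)⁻¹ : ℂ) * (Bᴴ *ᵥ y) j := ⟨_, rfl⟩
  have hDz : (fun j => (S.s h j : ℂ) * z j) = Bᴴ *ᵥ y := by
    funext j
    rw [hz]
    simp only
    rw [← mul_assoc, mul_inv_cancel₀ (S.ofReal_ne h j), one_mul]
  have hz1 : ∀ i, q < i → z i = 0 := by
    intro i hi
    rw [hz]
    simp only
    rw [hy2 i (by simpa using hi), mul_zero]
  have hid := key_id S hg z
  rw [hDz, ← hB, Matrix.mulVec_mulVec, hBU.mul_star, Matrix.one_mulVec] at hid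
  have hzn : S.s h q ^ 2 * ∑ i, ‖z i‖ ^ 2 ≤ ∑ i, ‖y i‖ ^ 2 := by
    have e : ∑ i, ‖y i‖ ^ 2 = ∑ i, ‖(S.s h i : ℂ) * z i‖ ^ 2 := by
      have e1 := nrm_unit hBU.star y
      rw [← hDz] at e1
      exact e1.symm
    rw [e, Finset.mul_sum]
    refine Finset.sum_le_sum fun i _ => ?_
    rw [norm_mul, mul_pow, Complex.norm_real, Real.norm_of_nonneg (S.pos h i).le]
    by_cases hi : i ≤ q
    · have := S.anti h hi
      have := S.pos h q
      gcongr
    · rw [hz1 i (not_le.1 hi)]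
      simp
  refine le_of_sq hyp (S.pos _ _).le ?_
  calc (S.s γ p1 * S.s h q) ^ 2 * ∑ i, ‖y i‖ ^ 2 = S.s h q ^ 2 * (S.s γ p1 ^ 2 * ∑ i, ‖y i‖ ^ 2) := by ring
    _ ≤ S.s h q ^ 2 * ∑ i, S.s γ i ^ 2 * ‖y i‖ ^ 2 := by
        refine mul_le_mul_of_nonneg_left ?_ (by positivity)
        rw [Finset.mul_sum]
        refine Finset.sum_le_sum fun i _ => ?_
        by_cases hi : i ≤ p1
        · have := S.anti γ hi
          have := S.pos γ p1
          gcongr
        · rw [hy1 i (by simpa using hi)]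
          simp
    _ = S.s h q ^ 2 * ∑ i, S.s g i ^ 2 * ‖(((S.kR g)ᴴ * S.kR h) *ᵥ z) i‖ ^ 2 := by rw [hid]
    _ ≤ S.s h q ^ 2 * ∑ i, S.s g o ^ 2 * ‖(((S.kR g)ᴴ * S.kR h) *ᵥ z) i‖ ^ 2 := by
        refine mul_le_mul_of_nonneg_left (Finset.sum_le_sum fun i _ => ?_) (by positivity)
        have := S.anti g (show o ≤ i from Fin.le_def.2 (by omega))
        have := S.pos g i
        gcongr
    _ = S.s g o ^ 2 * (S.s h q ^ 2 * ∑ i, ‖z i‖ ^ 2) := by
        rw [← Finset.mul_sum, nrm_unit ((S.uR g).star.mul (S.uR h))]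
        ring
    _ ≤ S.s g o ^ 2 * ∑ i, ‖y i‖ ^ 2 := mul_le_mul_of_nonneg_left hzn (by positivity)

/-- Upper bound for the first singular value of the product. -/
theorem s_top {o l : Fin N} (ho : (o : ℕ) = 0) (hl : (l : ℕ) + 1 = N) {γ h g : G}
    (hg : γ * h = g) : S.s γ o * S.s h l ≤ S.s g o := by
  classical
  set B : MN N := (S.kR γ)ᴴ * S.kL h with hB
  have hBU : IsU B := (S.uR γ).star.mul (S.uL h)
  obtain ⟨y, hy⟩ : ∃ y : Fin N → ℂ, y = Pi.single o 1 := ⟨_, rfl⟩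
  have hy0 : y ≠ 0 := by
    intro e
    have := congrFun e o
    rw [hy] at this
    simp at this
  have hyp := sum_pos_of_ne hy0
  obtain ⟨z, hz⟩ : ∃ z : Fin N → ℂ, z = fun j => ((S.s h j)⁻¹ : ℂ) * (Bᴴ *ᵥ y) j := ⟨_, rfl⟩
  have hDz : (fun j => (S.s h j : ℂ) * z j) = Bᴴ *ᵥ y := by
    funext j
    rw [hz]
    simp only
    rw [← mul_assoc, mul_inv_cancel₀ (S.ofReal_ne h j), one_mul]
  have hid := key_id S hg z
  rw [hDz, ← hB, Matrix.mulVec_mulVec, hBU.mul_star, Matrix.one_mulVec] at hid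
  have hzn : S.s h l ^ 2 * ∑ i, ‖z i‖ ^ 2 ≤ ∑ i, ‖y i‖ ^ 2 := by
    have e : ∑ i, ‖y i‖ ^ 2 = ∑ i, ‖(S.s h i : ℂ) * z i‖ ^ 2 := by
      have e1 := nrm_unit hBU.star y
      rw [← hDz] at e1
      exact e1.symm
    rw [e, Finset.mul_sum]
    refine Finset.sum_le_sum fun i _ => ?_
    rw [norm_mul, mul_pow, Complex.norm_real, Real.norm_of_nonneg (S.pos h i).le]
    have := S.anti h (show i ≤ l from Fin.le_def.2 (by have := i.2; omega))
    have := S.pos h l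
    gcongr
  refine le_of_sq hyp (S.pos _ _).le ?_
  calc (S.s γ o * S.s h l) ^ 2 * ∑ i, ‖y i‖ ^ 2 = S.s h l ^ 2 * (S.s γ o ^ 2 * ∑ i, ‖y i‖ ^ 2) := by ring
    _ ≤ S.s h l ^ 2 * ∑ i, S.s γ i ^ 2 * ‖y i‖ ^ 2 := by
        refine mul_le_mul_of_nonneg_left ?_ (by positivity)
        rw [Finset.mul_sum]
        refine Finset.sum_le_sum fun i _ => ?_
        by_cases hi : i = o
        · rw [hi]
        · rw [hy, Pi.single_eq_of_ne hi]
          simp
    _ = S.s h l ^ 2 * ∑ i, S.s g i ^ 2 * ‖(((S.kR g)ᴴ * S.kR h) *ᵥ z) i‖ ^ 2 := by rw [hid]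
    _ ≤ S.s h l ^ 2 * ∑ i, S.s g o ^ 2 * ‖(((S.kR g)ᴴ * S.kR h) *ᵥ z) i‖ ^ 2 := by
        refine mul_le_mul_of_nonneg_left (Finset.sum_le_sum fun i _ => ?_) (by positivity)
        have := S.anti g (show o ≤ i from Fin.le_def.2 (by omega))
        have := S.pos g i
        gcongr
    _ = S.s g o ^ 2 * (S.s h l ^ 2 * ∑ i, ‖z i‖ ^ 2) := by
        rw [← Finset.mul_sum, nrm_unit ((S.uR g).star.mul (S.uR h))]
        ring
    _ ≤ S.s g o ^ 2 * ∑ i, ‖y i‖ ^ 2 := mul_le_mul_of_nonneg_left hzn (by positivity)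

end Pool.Agent.Helper9.QH
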