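import Pool.Agent.Helper9.QH.Q1

/-!
# Project QH (MP_0f6f3f_an): finiteness

`fin_q`: if `g h⁻¹ = g' h'⁻¹` with elements of the type `{q}` and separated contracted subspaces, then `g'⁻¹ g` belongs to a finite set (more than half of the singular values are not contracted).
-/

set_option autoImplicit false

open Filter Topology Matrix
open scoped ComplexConjugate

namespace Pool.Agent.Helper9.QH

open Pool.Agent.Helper84.NI Pool.Agent.Helper84.GVN Pool.Agent.Helper90.RK Pool.Agent.Helper96.RK Pool.Agent.Helper84.GN.S3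

variable {G : Type} [Group G] {N : ℕ} {P : PH G N}

theorem ratio_q {a b C : ℝ} {m k : ℕ} (hmk : k < m) (ha : 0 < a) (hb : 0 < b) (hC : 1 ≤ C)
    (h1 : a ^ m * b ^ k ≤ C) (h2 : 1 ≤ C * (a ^ k * b ^ m)) : a ≤ C ^ (m + k) := by
  have hC0 : 0 < C := lt_of_lt_of_le one_pos hC
  rcases le_or_gt a 1 with h | h
  · exact h.trans (one_le_pow₀ hC)
  · have hkm : k * k < m * m := Nat.mul_lt_mul_of_lt_of_lt hmk hmk
    have h3 : a ^ (m * m - k * k) ≤ C ^ (m + k) := by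
      have e1 : m * m - k * k + k * k = m * m := Nat.sub_add_cancel hkm.le
      calc a ^ (m * m - k * k) = a ^ (m * m - k * k) * 1 := (mul_one _).symm
        _ ≤ a ^ (m * m - k * k) * (C * (a ^ k * b ^ m)) ^ k :=
            mul_le_mul_of_nonneg_left (one_le_pow₀ h2) (by positivity)
        _ = C ^ k * (a ^ (m * m - k * k + k * k) * b ^ (m * k)) := by
            rw [mul_pow, mul_pow, ← pow_mul, ← pow_mul, pow_add]
            ring
        _ = C ^ k * (a ^ m * b ^ k) ^ m := by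
            rw [e1, mul_pow, ← pow_mul, ← pow_mul, mul_comm k m]
        _ ≤ C ^ k * C ^ m := mul_le_mul_of_nonneg_left (pow_le_pow_left₀ (by positivity) h1 m) (by positivity)
        _ = C ^ (m + k) := by rw [← pow_add, add_comm]
    have h4 : m * m - k * k ≠ 0 := by omega
    exact (le_self_pow₀ h.le h4).trans h3

section Sizes

variable (S : Sv P)

theorem prod_split (q : Fin N) (h : G) :
    (∏ i ∈ Finset.Iic q, S.s h i) * ∏ i ∈ Finset.Ioi q, S.s h i = 1 := by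
  rw [← S.prod_s h, ← Finset.prod_filter_mul_prod_filter_not Finset.univ (fun i => i ≤ q)]
  congr 1
  · refine Finset.prod_congr ?_ fun _ _ => rfl
    ext i
    simp
  · refine Finset.prod_congr ?_ fun _ _ => rfl
    ext i
    simp

theorem prod_ge {q l : Fin N} (hl : (l : ℕ) + 1 = N) (h : G) :
    S.s h q ^ ((q : ℕ) + 1) * S.s h l ^ (N - 1 - q) ≤ 1 := by
  rw [← prod_split S q h]
  have h1 : S.s h q ^ ((q : ℕ) + 1) ≤ ∏ i ∈ Finset.Iic q, S.s h i := by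
    have h3 : ∏ _i ∈ Finset.Iic q, S.s h q ≤ ∏ i ∈ Finset.Iic q, S.s h i :=
      Finset.prod_le_prod (fun i _ => (S.pos h q).le) fun i hi => S.anti h (Finset.mem_Iic.1 hi)
    rwa [Finset.prod_const, Fin.card_Iic] at h3
  have h2 : S.s h l ^ (N - 1 - q) ≤ ∏ i ∈ Finset.Ioi q, S.s h i := by
    have h3 : ∏ _i ∈ Finset.Ioi q, S.s h l ≤ ∏ i ∈ Finset.Ioi q, S.s h i :=
      Finset.prod_le_prod (fun i _ => (S.pos h l).le) fun i _ => S.anti h (Fin.le_def.2 (by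
        have := i.2
        omega))
    rwa [Finset.prod_const, Fin.card_Ioi] at h3
  have := S.pos h l
  have := S.pos h q
  have h5 : 0 ≤ ∏ i ∈ Finset.Iic q, S.s h i := Finset.prod_nonneg fun i _ => (S.pos h i).le
  gcongr

theorem prod_le {o q q1 : Fin N} (ho : (o : ℕ) = 0) (hq1 : (q1 : ℕ) = q + 1) (h : G) :
    1 ≤ S.s h o ^ ((q : ℕ) + 1) * S.s h q1 ^ (N - 1 - q) := by
  rw [← prod_split S q h]
  have h1 : ∏ i ∈ Finset.Iic q, S.s h i ≤ S.s h o ^ ((q : ℕ) + 1) := by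
    have h3 : ∏ i ∈ Finset.Iic q, S.s h i ≤ ∏ _i ∈ Finset.Iic q, S.s h o :=
      Finset.prod_le_prod (fun i _ => (S.pos h i).le) fun i _ => S.anti h (Fin.le_def.2 (by omega))
    rwa [Finset.prod_const, Fin.card_Iic] at h3
  have h2 : ∏ i ∈ Finset.Ioi q, S.s h i ≤ S.s h q1 ^ (N - 1 - q) := by
    have h3 : ∏ i ∈ Finset.Ioi q, S.s h i ≤ ∏ _i ∈ Finset.Ioi q, S.s h q1 :=
      Finset.prod_le_prod (fun i _ => (S.pos h i).le) fun i hi => S.anti h (Fin.le_def.2 (by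
        have := Fin.lt_def.1 (Finset.mem_Ioi.1 hi)
        omega))
    rwa [Finset.prod_const, Fin.card_Ioi] at h3
  have h4 : 0 ≤ ∏ i ∈ Finset.Ioi q, S.s h i := Finset.prod_nonneg fun i _ => (S.pos h i).le
  have := S.pos h o
  gcongr

/-- Size relation in the region `Tq`. -/
theorem size_q {o q q1 l : Fin N} (ho : (o : ℕ) = 0) (hq1 : (q1 : ℕ) = q + 1) (hl : (l : ℕ) + 1 = N) {r L : ℝ}
    (hr : 1 ≤ r) {h : G} (hh : h ∈ Tq S q r L) :
    S.s h o ^ ((q : ℕ) + 1) * S.s h l ^ (N - 1 - q) ≤ r ^ N ∧ 1 ≤ r ^ N * (S.s h o ^ ((q : ℕ) + 1) * S.s h l ^ (N - 1 - q)) := by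
  have hr0 : 0 < r := by linarith
  have p0 := S.pos h o
  have p1 := S.pos h q
  have p2 := S.pos h l
  have p3 := S.pos h q1
  have hqN := q1.2
  have a1 : S.s h o ≤ r * S.s h q := hh.1 o q (Fin.le_def.2 (by omega)) le_rfl
  have a2 : S.s h q1 ≤ r * S.s h l := hh.2.1 q1 l (Fin.lt_def.2 (by omega)) (Fin.lt_def.2 (by omega))
  have b1 := prod_ge S (q := q) hl h
  have b2 := prod_le S (o := o) ho hq1 h
  constructor
  · calc S.s h o ^ ((q : ℕ) + 1) * S.s h l ^ (N - 1 - q)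
        ≤ (r * S.s h q) ^ ((q : ℕ) + 1) * S.s h l ^ (N - 1 - q) := by gcongr
      _ = r ^ ((q : ℕ) + 1) * (S.s h q ^ ((q : ℕ) + 1) * S.s h l ^ (N - 1 - q)) := by
          rw [mul_pow]
          ring
      _ ≤ r ^ ((q : ℕ) + 1) * 1 := mul_le_mul_of_nonneg_left b1 (by positivity)
      _ ≤ r ^ N := by
          rw [mul_one]
          exact pow_le_pow_right₀ hr (by omega)
  · calc 1 ≤ S.s h o ^ ((q : ℕ) + 1) * S.s h q1 ^ (N - 1 - q) := b2
      _ ≤ S.s h o ^ ((q : ℕ) + 1) * (r * S.s h l) ^ (N - 1 - q) := by gcongr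
      _ = r ^ (N - 1 - q) * (S.s h o ^ ((q : ℕ) + 1) * S.s h l ^ (N - 1 - q)) := by
          rw [mul_pow]
          ring
      _ ≤ r ^ N * (S.s h o ^ ((q : ℕ) + 1) * S.s h l ^ (N - 1 - q)) :=
          mul_le_mul_of_nonneg_right (pow_le_pow_right₀ hr (by omega)) (by positivity)

/-- Comparison for two products which are equal. -/
theorem cmp_q {o q q1 p l : Fin N} (ho : (o : ℕ) = 0) (hq1 : (q1 : ℕ) = q + 1) (hp : (p : ℕ) + q + 2 = N)
    (hl : (l : ℕ) + 1 = N) {r L c : ℝ} (hr : 1 ≤ r) (hc0 : 0 < c) {g h g' h' : G} (hg : g ∈ Tq S q r L)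
    (hh : h ∈ Tq S q r L)
    (hc : ∀ v : Fin N → ℂ, (∀ i, i ≤ q → v i = 0) →
      c ^ 2 * ∑ i, ‖v i‖ ^ 2 ≤ ∑ i, if i ≤ q then ‖(((S.kR g)ᴴ * S.kR h) *ᵥ v) i‖ ^ 2 else 0)
    (he : g * h⁻¹ = g' * h'⁻¹) : c / r ^ 2 * (S.s g o / S.s g' o) ≤ S.s h l / S.s h' l := by
  have hr0 : 0 < r := by linarith
  have p0 := S.pos g o
  have p1 := S.pos g' o
  have p2 := S.pos h l
  have p3 := S.pos h' l
  have p4 := S.pos g q
  have p5 := S.pos h q1
  have p6 := S.pos (g * h⁻¹) o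
  have hqN := q1.2
  have a1 : S.s g o ≤ r * S.s g q := hg.1 o q (Fin.le_def.2 (by omega)) le_rfl
  have a2 : S.s h q1 ≤ r * S.s h l := hh.2.1 q1 l (Fin.lt_def.2 (by omega)) (Fin.lt_def.2 (by omega))
  have b1 := s_low S hq1 hp (γ := g * h⁻¹) (h := h) (g := g) (by group) hc
  have b2 := s_top S ho hl (γ := g * h⁻¹) (h := h') (g := g') (by rw [he]; group)
  have b3 : S.s (g * h⁻¹) p ≤ S.s (g * h⁻¹) o := S.anti _ (Fin.le_def.2 (by omega))
  have c1 : c / r ^ 2 * S.s g o ≤ S.s (g * h⁻¹) o * S.s h l := by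
    calc c / r ^ 2 * S.s g o ≤ c / r ^ 2 * (r * S.s g q) := mul_le_mul_of_nonneg_left a1 (by positivity)
      _ = (c * S.s g q) / r := by
          field_simp
      _ ≤ (S.s (g * h⁻¹) p * S.s h q1) / r := by gcongr
      _ ≤ (S.s (g * h⁻¹) o * (r * S.s h l)) / r := by gcongr
      _ = S.s (g * h⁻¹) o * S.s h l := by field_simp
  rw [le_div_iff₀ p3]
  have c2 : c / r ^ 2 * (S.s g o / S.s g' o) * S.s h' l = (c / r ^ 2 * S.s g o) * S.s h' l / S.s g' o := by ring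
  rw [c2, div_le_iff₀ p1]
  calc c / r ^ 2 * S.s g o * S.s h' l ≤ S.s (g * h⁻¹) o * S.s h l * S.s h' l := by gcongr
    _ = S.s h l * (S.s (g * h⁻¹) o * S.s h' l) := by ring
    _ ≤ S.s h l * S.s g' o := by gcongr

end Sizes

theorem comb_q {U A : MN N} (hU : IsU U) (q : Fin N) {M c : ℝ} (hc : 0 < c)
    (h1 : ∑ i, ∑ j, (if i ≤ q then ‖A i j‖ ^ 2 else 0) ≤ M)
    (h2 : ∑ i, ∑ j, (if i ≤ q then ‖(U * A) i j‖ ^ 2 else 0) ≤ M)
    (h3 : ∀ v : Fin N → ℂ, (∀ i, i ≤ q → v i = 0) →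
      c ^ 2 * ∑ i, ‖v i‖ ^ 2 ≤ ∑ i, if i ≤ q then ‖(U *ᵥ v) i‖ ^ 2 else 0) :
    ns A ≤ 4 * M / c ^ 2 + M := by
  set A' : MN N := Matrix.of fun i j => if i ≤ q then A i j else 0 with hA'
  set B : MN N := Matrix.of fun i j => if i ≤ q then 0 else A i j with hB
  have hsplit : ns A = ns B + ∑ i, ∑ j, (if i ≤ q then ‖A i j‖ ^ 2 else 0) := by
    unfold ns
    rw [← Finset.sum_add_distrib]
    refine Finset.sum_congr rfl fun i _ => ?_
    rw [← Finset.sum_add_distrib]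
    refine Finset.sum_congr rfl fun j _ => ?_
    rw [hB, Matrix.of_apply]
    split_ifs <;> simp
  have hns : ns (U * A') ≤ M := by
    rw [ns_unitary_mul hU]
    refine le_trans (le_of_eq ?_) h1
    unfold ns
    refine Finset.sum_congr rfl fun i _ => Finset.sum_congr rfl fun j _ => ?_
    rw [hA', Matrix.of_apply]
    split_ifs <;> simp
  have hAB : A = A' + B := by
    ext i j
    rw [Matrix.add_apply, hA', hB, Matrix.of_apply, Matrix.of_apply]
    split_ifs <;> simp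
  have hcol : ∀ j, c ^ 2 * ∑ i, ‖B i j‖ ^ 2 ≤
      ∑ i, (2 * (if i ≤ q then ‖(U * A) i j‖ ^ 2 else 0) + 2 * ‖(U * A') i j‖ ^ 2) := by
    intro j
    refine (h3 (fun i => B i j) (fun i hi => by rw [hB, Matrix.of_apply, if_pos hi])).trans ?_
    refine Finset.sum_le_sum fun i _ => ?_
    have e1 : (U *ᵥ fun i => B i j) i = (U * B) i j := by
      rw [Matrix.mul_apply, Matrix.mulVec, dotProduct]
    rw [e1]
    have e2 : (U * B) i j = (U * A) i j - (U * A') i j := by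
      rw [hAB, Matrix.mul_add, Matrix.add_apply]
      ring
    split_ifs with hi
    · rw [e2]
      have e3 := norm_sub_le ((U * A) i j) ((U * A') i j)
      have e4 := norm_nonneg ((U * A) i j - (U * A') i j)
      nlinarith [sq_nonneg (‖(U * A) i j‖ - ‖(U * A') i j‖), norm_nonneg ((U * A) i j),
        norm_nonneg ((U * A') i j)]
    · positivity
  have h4 : c ^ 2 * ns B ≤ 4 * M := by
    calc c ^ 2 * ns B = ∑ j, c ^ 2 * ∑ i, ‖B i j‖ ^ 2 := by
          unfold ns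
          rw [Finset.sum_comm, Finset.mul_sum]
      _ ≤ ∑ j, ∑ i, (2 * (if i ≤ q then ‖(U * A) i j‖ ^ 2 else 0) + 2 * ‖(U * A') i j‖ ^ 2) :=
          Finset.sum_le_sum fun j _ => hcol j
      _ = 2 * (∑ i, ∑ j, (if i ≤ q then ‖(U * A) i j‖ ^ 2 else 0)) + 2 * ns (U * A') := by
          rw [Finset.sum_comm]
          unfold ns
          rw [Finset.mul_sum, Finset.mul_sum, ← Finset.sum_add_distrib]
          refine Finset.sum_congr rfl fun i _ => ?_
          rw [Finset.mul_sum, Finset.mul_sum, ← Finset.sum_add_distrib]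
      _ ≤ 4 * M := by linarith
  rw [hsplit]
  refine add_le_add ?_ h1
  rw [le_div_iff₀ (by positivity)]
  linarith

theorem key_q (S : Sv P) {q : Fin N} {r L : ℝ} (hr : 1 ≤ r) {g t g' : G} (hg' : g' ∈ Tq S q r L)
    (hgt : g' * t = g) {o : Fin N} (ho : (o : ℕ) = 0) {C : ℝ} (hC : S.s g o / S.s g' o ≤ C) :
    ∑ i, ∑ j, (if i ≤ q then ‖((S.kR g')ᴴ * P.ι t) i j‖ ^ 2 else 0) ≤ N * (r * C) ^ 2 := by
  have hp := S.pos g o
  have hp' := S.pos g' o
  have hr0 : 0 < r := lt_of_lt_of_le one_pos hr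
  have hC0 : 0 < C := lt_of_lt_of_le (div_pos hp hp') hC
  have h1 : ns (P.ι g) ≤ N * S.s g o ^ 2 := by
    rw [S.ns_iota]
    calc ∑ i, S.s g i ^ 2 ≤ ∑ _i : Fin N, S.s g o ^ 2 :=
          Finset.sum_le_sum fun i _ => pow_le_pow_left₀ (S.pos g i).le
            (S.anti g (Fin.le_def.2 (by omega))) 2
      _ = N * S.s g o ^ 2 := by
          rw [Finset.sum_const, Finset.card_univ, Fintype.card_fin, nsmul_eq_mul]
  have h2 : ns (P.ι g) = ∑ i, ∑ j, S.s g' i ^ 2 * ‖((S.kR g')ᴴ * P.ι t) i j‖ ^ 2 := by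
    obtain ⟨c, hc, h⟩ := P.mul' g' t
    rw [← hgt, h, ns_smul, hc, one_pow, one_mul, S.spec g']
    have e1 : S.kL g' * diagonal (fun i => (S.s g' i : ℂ)) * (S.kR g')ᴴ * P.ι t =
        S.kL g' * (diagonal (fun i => (S.s g' i : ℂ)) * ((S.kR g')ᴴ * P.ι t)) := by
      simp only [Matrix.mul_assoc]
    rw [e1, ns_unitary_mul (S.uL g')]
    unfold ns
    refine Finset.sum_congr rfl fun i _ => Finset.sum_congr rfl fun j _ => ?_
    rw [Matrix.diagonal_mul, norm_mul, mul_pow, Complex.norm_real,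
      Real.norm_of_nonneg (S.pos g' i).le]
  have h3 : (∑ i, ∑ j, (if i ≤ q then ‖((S.kR g')ᴴ * P.ι t) i j‖ ^ 2 else 0)) *
      (S.s g' o / r) ^ 2 ≤ ns (P.ι g) := by
    rw [h2, Finset.sum_mul]
    refine Finset.sum_le_sum fun i _ => ?_
    rw [Finset.sum_mul]
    refine Finset.sum_le_sum fun j _ => ?_
    by_cases hi : i ≤ q
    · rw [if_pos hi, mul_comm]
      refine mul_le_mul_of_nonneg_right (pow_le_pow_left₀ (div_pos hp' hr0).le ?_ 2) (by positivity)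
      rw [div_le_iff₀ hr0, mul_comm]
      exact hg'.1 o i (Fin.le_def.2 (by omega)) hi
    · rw [if_neg hi, zero_mul]
      positivity
  have h5 := h3.trans h1
  have h6 : 0 < (S.s g' o / r) ^ 2 := by positivity
  rw [← le_div_iff₀ h6] at h5
  refine h5.trans ?_
  have h7 : N * S.s g o ^ 2 / (S.s g' o / r) ^ 2 = N * (r * (S.s g o / S.s g' o)) ^ 2 := by
    field_simp
  rw [h7]
  refine mul_le_mul_of_nonneg_left (pow_le_pow_left₀ (by positivity) ?_ 2) (Nat.cast_nonneg _)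
  exact mul_le_mul_of_nonneg_left hC hr0.le

theorem pdist_symm_q (S : Sv P) (b : Fin N → ℕ) (g h : G) :
    pdist S b g h = pdist S b h g := by
  unfold pdist
  refine Finset.sum_congr rfl fun j _ => ?_
  congr 1
  unfold ns
  refine Finset.sum_congr rfl fun i _ => Finset.sum_congr rfl fun l _ => ?_
  rw [Matrix.sub_apply, Matrix.sub_apply, norm_sub_rev]

theorem one_lt_gp (S : Sv P) {q : Fin N} (hq : (q : ℕ) + 1 < N) {r L : ℝ} (hL : 1 < L) {g : G} (hg : g ∈ Tq S q r L) :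
    1 < gp S g q := by
  unfold gp
  rw [dif_pos hq]
  have h1 := hg.2.2 q ⟨q + 1, hq⟩ le_rfl (Fin.lt_def.2 (Nat.lt_succ_self _))
  have h2 := S.pos g ⟨q + 1, hq⟩
  rw [lt_div_iff₀ h2, one_mul]
  nlinarith

theorem fin_q (S : Sv P) {q : Fin N} (hS : SepA S q) (hq : (q : ℕ) + 1 < N) (hmk : N < 2 * ((q : ℕ) + 1)) {r δ L : ℝ}
    (hr : 1 ≤ r) (hδ : 0 < δ) (hL : 1 < L) : ∃ H : Finset G, ∀ g h g' h' : G,
    g ∈ Tq S q r L → h ∈ Tq S q r L → g' ∈ Tq S q r L → h' ∈ Tq S q r L →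
      δ ≤ pdist S (bJ (Finset.univ.erase q)) g h →
      δ ≤ pdist S (bJ (Finset.univ.erase q)) g' h' → g * h⁻¹ = g' * h'⁻¹ → g'⁻¹ * g ∈ H := by
  obtain ⟨c0, hc0, hsep⟩ := hS δ hδ
  obtain ⟨c, hcdef⟩ : ∃ c : ℝ, c = min c0 1 / r ^ 2 := ⟨_, rfl⟩
  have hr0 : 0 < r := by linarith
  have hc : 0 < c := by
    rw [hcdef]
    positivity
  have hc1 : c ≤ 1 := by
    rw [hcdef, div_le_one (by positivity)]
    exact (min_le_right _ _).trans (one_le_pow₀ hr)
  have hcc : c ≤ c0 / r ^ 2 := by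
    rw [hcdef]
    gcongr
    exact min_le_left _ _
  obtain ⟨m, hm⟩ : ∃ m : ℕ, m = (q : ℕ) + 1 := ⟨_, rfl⟩
  obtain ⟨k, hk⟩ : ∃ k : ℕ, k = N - 1 - (q : ℕ) := ⟨_, rfl⟩
  have hmk' : k < m := by omega
  obtain ⟨C, hCdef⟩ : ∃ C : ℝ, C = r ^ N * r ^ N * (1 / c) ^ k := ⟨_, rfl⟩
  have h1c : 1 ≤ 1 / c := by
    rw [le_div_iff₀ hc]
    linarith
  have hC1 : 1 ≤ C := by
    rw [hCdef]
    exact one_le_mul_of_one_le_of_one_le (one_le_mul_of_one_le_of_one_le (one_le_pow₀ hr) (one_le_pow₀ hr))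
      (one_le_pow₀ h1c)
  obtain ⟨M, hM⟩ : ∃ M : ℝ, M = N * (r * C ^ (m + k)) ^ 2 := ⟨_, rfl⟩
  refine ⟨(P.fin (4 * M / c0 ^ 2 + M)).toFinset, fun g h g' h' hg hh hg' hh' hd hd' heq => ?_⟩
  rw [Set.Finite.mem_toFinset]
  change ns (P.ι (g'⁻¹ * g)) ≤ _
  obtain ⟨o, ho⟩ : ∃ o : Fin N, (o : ℕ) = 0 := ⟨⟨0, by omega⟩, rfl⟩
  obtain ⟨q1, hq1⟩ : ∃ q1 : Fin N, (q1 : ℕ) = q + 1 := ⟨⟨q + 1, by omega⟩, rfl⟩
  obtain ⟨p, hp⟩ : ∃ p : Fin N, (p : ℕ) + q + 2 = N := ⟨⟨N - 2 - q, by omega⟩, by simp only; omega⟩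
  obtain ⟨l, hl⟩ : ∃ l : Fin N, (l : ℕ) + 1 = N := ⟨⟨N - 1, by omega⟩, by simp only; omega⟩
  have g1 := one_lt_gp S hq hL hg
  have g2 := one_lt_gp S hq hL hh
  have g3 := one_lt_gp S hq hL hg'
  have g4 := one_lt_gp S hq hL hh'
  have hds : δ ≤ pdist S (bJ (Finset.univ.erase q)) h g := by rw [pdist_symm_q]; exact hd
  have hds' : δ ≤ pdist S (bJ (Finset.univ.erase q)) h' g' := by rw [pdist_symm_q]; exact hd'
  have heq' : h * g⁻¹ = h' * g'⁻¹ := by
    have := congrArg (·⁻¹) heq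
    simpa using this
  have ht : g'⁻¹ * g = h'⁻¹ * h := by
    have h1 : g = g' * h'⁻¹ * h := by rw [← heq]; group
    rw [h1]
    group
  -- general step
  have step : ∀ x y x' y' : G, x ∈ Tq S q r L → y ∈ Tq S q r L → x' ∈ Tq S q r L → y' ∈ Tq S q r L →
      1 < gp S x q → 1 < gp S y q → 1 < gp S x' q → 1 < gp S y' q →
      δ ≤ pdist S (bJ (Finset.univ.erase q)) x y → δ ≤ pdist S (bJ (Finset.univ.erase q)) y x →
      δ ≤ pdist S (bJ (Finset.univ.erase q)) x' y' → δ ≤ pdist S (bJ (Finset.univ.erase q)) y' x' →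
      x * y⁻¹ = x' * y'⁻¹ → y * x⁻¹ = y' * x'⁻¹ → S.s x o / S.s x' o ≤ C ^ (m + k) := by
    intro x y x' y' hx hy hx' hy' gx gy gx' gy' d1 d2 d3 d4 e1 e2
    obtain ⟨a, ha⟩ : ∃ a : ℝ, a = S.s x o / S.s x' o := ⟨_, rfl⟩
    obtain ⟨b, hb⟩ : ∃ b : ℝ, b = S.s y o / S.s y' o := ⟨_, rfl⟩
    obtain ⟨u, hu⟩ : ∃ u : ℝ, u = S.s x l / S.s x' l := ⟨_, rfl⟩
    obtain ⟨v, hv⟩ : ∃ v : ℝ, v = S.s y l / S.s y' l := ⟨_, rfl⟩
    have ha0 : 0 < a := by rw [ha]; exact div_pos (S.pos _ _) (S.pos _ _)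
    have hb0 : 0 < b := by rw [hb]; exact div_pos (S.pos _ _) (S.pos _ _)
    have hu0 : 0 < u := by rw [hu]; exact div_pos (S.pos _ _) (S.pos _ _)
    have hv0 : 0 < v := by rw [hv]; exact div_pos (S.pos _ _) (S.pos _ _)
    -- c b ≤ u
    have f1 := cmp_q S ho hq1 hp hl hr hc0 hy hx (hsep y x gy gx d2) (g' := y') (h' := x') e2
    -- c v ≤ a
    have f2 := cmp_q S ho hq1 hp hl hr hc0 hx' hy' (hsep x' y' gx' gy' d3) (g' := x) (h' := y) e1.symm
    have f1' : c * b ≤ u := by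
      rw [hb, hu]
      refine le_trans (mul_le_mul_of_nonneg_right hcc (div_pos (S.pos _ _) (S.pos _ _)).le) f1
    have f2' : c * v ≤ a := by
      have h1 : c * (S.s x' o / S.s x o) ≤ S.s y' l / S.s y l :=
        le_trans (mul_le_mul_of_nonneg_right hcc (div_pos (S.pos _ _) (S.pos _ _)).le) f2
      rw [hv, ha]
      have p1 := S.pos x' o
      have p2 := S.pos x o
      have p3 := S.pos y' l
      have p4 := S.pos y l
      have h2 : c * S.s x' o * S.s y l ≤ S.s y' l * S.s x o := by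
        rw [← mul_div_assoc, div_le_div_iff₀ p2 p4] at h1
        exact h1
      rw [← mul_div_assoc, div_le_div_iff₀ p3 p1]
      calc c * S.s y l * S.s x' o = c * S.s x' o * S.s y l := by ring
        _ ≤ S.s y' l * S.s x o := h2
        _ = S.s x o * S.s y' l := by ring
    -- sizes
    obtain ⟨s1, s2⟩ := size_q S ho hq1 hl hr hx
    obtain ⟨s3, s4⟩ := size_q S ho hq1 hl hr hx'
    obtain ⟨s5, s6⟩ := size_q S ho hq1 hl hr hy
    obtain ⟨s7, s8⟩ := size_q S ho hq1 hl hr hy'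
    rw [← hm, ← hk] at s1 s2 s3 s4 s5 s6 s7 s8
    have m1 : a ^ m * u ^ k ≤ r ^ N * r ^ N := by
      have p1 : 0 < S.s x' o ^ m * S.s x' l ^ k := mul_pos (pow_pos (S.pos _ _) _) (pow_pos (S.pos _ _) _)
      have e3 : a ^ m * u ^ k = (S.s x o ^ m * S.s x l ^ k) / (S.s x' o ^ m * S.s x' l ^ k) := by
        rw [ha, hu, div_pow, div_pow, div_mul_div_comm]
      rw [e3, div_le_iff₀ p1]
      calc S.s x o ^ m * S.s x l ^ k ≤ r ^ N * 1 := by rw [mul_one]; exact s1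
        _ ≤ r ^ N * (r ^ N * (S.s x' o ^ m * S.s x' l ^ k)) := mul_le_mul_of_nonneg_left s4 (by positivity)
        _ = _ := by ring
    have m2 : 1 ≤ r ^ N * r ^ N * (b ^ m * v ^ k) := by
      have p1 : 0 < S.s y' o ^ m * S.s y' l ^ k := mul_pos (pow_pos (S.pos _ _) _) (pow_pos (S.pos _ _) _)
      have e3 : b ^ m * v ^ k = (S.s y o ^ m * S.s y l ^ k) / (S.s y' o ^ m * S.s y' l ^ k) := by
        rw [hb, hv, div_pow, div_pow, div_mul_div_comm]
      rw [e3, ← mul_div_assoc, le_div_iff₀ p1, one_mul]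
      calc S.s y' o ^ m * S.s y' l ^ k ≤ r ^ N * 1 := by rw [mul_one]; exact s7
        _ ≤ r ^ N * (r ^ N * (S.s y o ^ m * S.s y l ^ k)) := mul_le_mul_of_nonneg_left s6 (by positivity)
        _ = _ := by ring
    rw [← ha]
    refine ratio_q hmk' ha0 hb0 hC1 ?_ ?_
    · -- a ^ m * b ^ k ≤ C
      have f3 : b ≤ (1 / c) * u := by
        rw [one_div, ← div_eq_inv_mul, le_div_iff₀ hc, mul_comm]
        exact f1'
      calc a ^ m * b ^ k ≤ a ^ m * ((1 / c) * u) ^ k := by gcongr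
        _ = (a ^ m * u ^ k) * (1 / c) ^ k := by
            rw [mul_pow]
            ring
        _ ≤ r ^ N * r ^ N * (1 / c) ^ k := by gcongr
        _ = C := hCdef.symm
    · have f4 : v ≤ (1 / c) * a := by
        rw [one_div, ← div_eq_inv_mul, le_div_iff₀ hc, mul_comm]
        exact f2'
      calc 1 ≤ r ^ N * r ^ N * (b ^ m * v ^ k) := m2
        _ ≤ r ^ N * r ^ N * (b ^ m * ((1 / c) * a) ^ k) := by gcongr
        _ = C * (a ^ k * b ^ m) := by
            rw [hCdef, mul_pow]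
            ring
  have hra := step g h g' h' hg hh hg' hh' g1 g2 g3 g4 hd hds hd' hds' heq heq'
  have hrb := step h g h' g' hh hg hh' hg' g2 g1 g4 g3 hds hd hds' hd' heq' heq
  have k1 := key_q S hr (t := g'⁻¹ * g) hg' (by group) ho hra
  have k2 := key_q S hr (t := g'⁻¹ * g) hh' (by rw [ht]; group) ho hrb
  rw [← hM] at k1 k2
  have hU : IsU ((S.kR h')ᴴ * S.kR g') := (S.uR h').star.mul (S.uR g')
  have hUA : ((S.kR h')ᴴ * S.kR g') * ((S.kR g')ᴴ * P.ι (g'⁻¹ * g)) =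
      (S.kR h')ᴴ * P.ι (g'⁻¹ * g) := by
    have e1 : S.kR g' * (S.kR g')ᴴ = 1 := (S.uR g').mul_star
    calc ((S.kR h')ᴴ * S.kR g') * ((S.kR g')ᴴ * P.ι (g'⁻¹ * g))
        = (S.kR h')ᴴ * (S.kR g' * (S.kR g')ᴴ) * P.ι (g'⁻¹ * g) := by
          simp only [Matrix.mul_assoc]
      _ = _ := by rw [e1, Matrix.mul_one]
  rw [← ns_unitary_mul (S.uR g').star]
  refine comb_q hU q hc0 k1 ?_ (hsep h' g' g4 g3 hds')
  rw [hUA]
  exact k2

end Pool.Agent.Helper9.QH
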