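import Pool.Agent.Helper9.QH.Q2
import Pool.Agent.Helper9.S3.F5
import Pool.Agent.Helper9.RG.Reach

/-!
# Project QH (MP_0f6f3f_an): the geometric estimate

`flG_q`: the estimate `FlG` for the stratum `univ \ {q}` and the sets `Kq` (the gap after `q` and another one are larger than `R`), if `SepA S q` holds and more than half of the singular values are not contracted.
`reach_q`: a nonamenable group with a component of type `{q}` reaches the sets `Kq`.
-/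

set_option autoImplicit false
set_option linter.unusedSectionVars false

open Filter Topology Matrix MeasureTheory
open scoped ComplexConjugate

namespace Pool.Agent.Helper9.QH

open Pool.Agent.Helper84.NI Pool.Agent.Helper84.GVN Pool.Agent.Helper90.RK Pool.Agent.Helper96.RK Pool.Agent.Helper84.GN.S3
open Pool.Agent.Helper84.GN.S3.X
open Pool.Agent.Helper66.FR Pool.Agent.Helper84.FR Pool.Agent.Helper55.FR

section Geo

variable {G : Type} [Group G] {N : ℕ} {P : PH G N}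

/-- The gap after `q` and another one are larger than `R`. -/
def Kq (S : Sv P) (q : Fin N) (R : ℝ) : Set G := {γ | R < gp S γ q ∧ ∃ i, i ≠ q ∧ R < gp S γ i}

theorem gap_q (S : Sv P) {q p : Fin N} (hS : SepA S q) (hp : (p : ℕ) + q + 2 = N) {r δ : ℝ} (hr : 1 ≤ r) (hδ : 0 < δ) :
    ∃ c : ℝ, 0 < c ∧ ∀ L : ℝ, 1 < L → ∀ g h : G, g ∈ Tq S q r L → h ∈ Tq S q r L →
      δ ≤ pdist S (bJ (Finset.univ.erase q)) g h → c * L ≤ gp S (g * h⁻¹) p := by
  obtain ⟨c, hc, H⟩ := hS δ hδ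
  have hr0 : 0 < r := by linarith
  refine ⟨c / r, by positivity, fun L hL g h hg hh hd => ?_⟩
  obtain ⟨o, ho⟩ : ∃ o : Fin N, (o : ℕ) = 0 := ⟨⟨0, by omega⟩, rfl⟩
  obtain ⟨q1, hq1⟩ : ∃ q1 : Fin N, (q1 : ℕ) = q + 1 := ⟨⟨q + 1, by omega⟩, rfl⟩
  have hq : (q : ℕ) + 1 < N := by omega
  have hp1 : (p : ℕ) + 1 < N := by omega
  have a1 := s_low S hq1 hp (γ := g * h⁻¹) (h := h) (g := g) (by group)
    (H g h (one_lt_gp S hq hL hg) (one_lt_gp S hq hL hh) hd)
  have a2 := s_up S (p1 := ⟨p + 1, hp1⟩) ho rfl hp (γ := g * h⁻¹) (h := h) (g := g) (by group)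
  have a3 : S.s g o ≤ r * S.s g q := hg.1 o q (Fin.le_def.2 (by omega)) le_rfl
  have a4 : L * S.s h q1 ≤ S.s h q := hh.2.2 q q1 le_rfl (Fin.lt_def.2 (by omega))
  unfold gp
  rw [dif_pos hp1]
  set x := S.s (g * h⁻¹) p
  set y := S.s (g * h⁻¹) ⟨(p : ℕ) + 1, hp1⟩
  have hx : 0 < x := S.pos _ _
  have hy : 0 < y := S.pos _ _
  have b1 := S.pos g o
  have b2 := S.pos g q
  have b3 := S.pos h q
  have b4 := S.pos h q1
  rw [le_div_iff₀ hy]
  have e1 : (c / r * L * y) * S.s h q ≤ x * S.s h q := by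
    calc (c / r * L * y) * S.s h q = c / r * L * (y * S.s h q) := by ring
      _ ≤ c / r * L * (r * S.s g q) := mul_le_mul_of_nonneg_left (a2.trans a3) (by positivity)
      _ = L * (c * S.s g q) := by field_simp
      _ ≤ L * (x * S.s h q1) := mul_le_mul_of_nonneg_left a1 (by linarith)
      _ = x * (L * S.s h q1) := by ring
      _ ≤ x * S.s h q := mul_le_mul_of_nonneg_left a4 hx.le
  exact le_of_mul_le_mul_right e1 b3

theorem sub_Tq (S : Sv P) (q : Fin N) (n m : ℕ) {L : ℝ} (hL : L ≤ m) :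
    WC S (Finset.univ.erase q) n ∩ TC S [Finset.univ.erase q] m ⊆ Tq S q (Real.exp n ^ N) L := by
  rintro γ ⟨h1, h2⟩
  have hE : (1 : ℝ) ≤ Real.exp n := Real.one_le_exp (Nat.cast_nonneg _)
  have hin : ∀ k, k ≠ q → gp S γ k ≤ Real.exp n := by
    intro k hk
    rw [gp_eq_exp]
    exact Real.exp_le_exp.2 (h1 k (Finset.mem_erase.2 ⟨hk, Finset.mem_univ k⟩))
  refine ⟨fun i j hi hj => ratio_le S γ hE i j fun k hk1 hk2 => hin k (ne_of_lt (lt_of_lt_of_le hk2 hj)),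
    fun i j hi hj => ratio_le S γ hE i j fun k hk1 hk2 => hin k (ne_of_gt (lt_of_lt_of_le hi hk1)), fun i j hi hj => ?_⟩
  have h3 : (m : ℝ) ≤ lg S γ q := by
    have h4 := h2 (Finset.univ.erase q) (List.mem_singleton.2 rfl) q (by simp)
    have h5 := sum_lg_nonneg S γ (Finset.univ.erase q)
    have h6 : (0 : ℝ) ≤ m := Nat.cast_nonneg _
    nlinarith
  have h4 : L ≤ gp S γ q := by
    rw [gp_eq_exp]
    have := Real.add_one_le_exp (lg S γ q)
    linarith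
  have h5 := gap_le_ratio S γ hi hj
  have h6 := S.pos γ j
  exact (mul_le_mul_of_nonneg_right h4 h6.le).trans h5

/-- The geometric estimate for the stratum of type `{q}`. -/
theorem flG_q (S : Sv P) {q : Fin N} (hS : SepA S q) (hq : (q : ℕ) + 1 < N) (hmk : N < 2 * ((q : ℕ) + 1)) :
    FlG S (Finset.univ.erase q) (Kq S q) := by
  intro n δ hδ
  obtain ⟨r, hr⟩ : ∃ r : ℝ, r = Real.exp n ^ N := ⟨_, rfl⟩
  have hr1 : 1 ≤ r := by
    rw [hr]
    exact one_le_pow₀ (Real.one_le_exp (Nat.cast_nonneg _))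
  obtain ⟨H, hH⟩ := fin_q S hS hq hmk hr1 hδ (L := 2) (by norm_num)
  obtain ⟨p, hp⟩ : ∃ p : Fin N, (p : ℕ) + q + 2 = N := ⟨⟨N - 2 - q, by omega⟩, by simp only; omega⟩
  obtain ⟨c, hc, hgap⟩ := gap_q S hS hp hr1 hδ
  refine ⟨Real.sqrt H.card, Real.sqrt_nonneg _, fun R => ?_⟩
  obtain ⟨m, hm⟩ : ∃ m : ℕ, max 2 ((|R| + 1) / c) ≤ m := exists_nat_ge _
  have hm2 : (2 : ℝ) ≤ m := (le_max_left _ _).trans hm
  have hL : |R| + 1 ≤ c * m := by
    calc |R| + 1 = c * ((|R| + 1) / c) := by field_simp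
      _ ≤ _ := mul_le_mul_of_nonneg_left ((le_max_right _ _).trans hm) hc.le
  have hR : R < |R| + 1 := lt_of_le_of_lt (le_abs_self R) (lt_add_one _)
  have hsub2 : ∀ γ, γ ∈ WC S (Finset.univ.erase q) n ∩ TC S [Finset.univ.erase q] m → γ ∈ Tq S q r 2 := by
    intro γ hγ
    rw [hr]
    exact sub_Tq S q n m hm2 hγ
  have hsubm : ∀ γ, γ ∈ WC S (Finset.univ.erase q) n ∩ TC S [Finset.univ.erase q] m → γ ∈ Tq S q r m := by
    intro γ hγ
    rw [hr]
    exact sub_Tq S q n m le_rfl hγ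
  refine ⟨m, fun A B hAB w hw b b' hb hb' => ?_⟩
  have hAB' : ∀ γ ∈ A, ∀ γ' ∈ B, δ ≤ pdist S (bJ (Finset.univ.erase q)) γ γ' := hAB
  refine fin_to_one (A := A ∩ (WC S (Finset.univ.erase q) n ∩ TC S [Finset.univ.erase q] m))
    (B := B ∩ (WC S (Finset.univ.erase q) n ∩ TC S [Finset.univ.erase q] m)) (C := Kq S q R) (H := H)
    (fun g h g' h' hg hh hg' hh' he => hH g h g' h' (hsub2 _ hg.2) (hsub2 _ hh.2) (hsub2 _ hg'.2)
      (hsub2 _ hh'.2) (hAB' g hg.1 h hh.1) (hAB' g' hg'.1 h' hh'.1) he)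
    (fun g h hg hh => ?_) hw hb hb'
  have hd := hAB' g hg.1 h hh.1
  have g1 := hgap m (by linarith) g h (hsubm _ hg.2) (hsubm _ hh.2) hd
  have g2 := hgap m (by linarith) h g (hsubm _ hh.2) (hsubm _ hg.2) (by rwa [pdist_symm_q])
  refine ⟨?_, p, ?_, ?_⟩
  · have h2 : (g * h⁻¹)⁻¹ = h * g⁻¹ := by group
    have h3 : gp S (g * h⁻¹)⁻¹ p = gp S (g * h⁻¹) q := gp_inv S (g * h⁻¹) hp
    rw [h2] at h3
    rw [← h3]
    linarith
  · intro e
    rw [e] at hp
    omega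
  · linarith

theorem Kq_sub (S : Sv P) (q : Fin N) (R : ℝ) :
    ∃ n : ℕ, TC S [Finset.univ.erase q] n ∩ (WC S (Finset.univ.erase q) n)ᶜ ⊆ Kq S q R := by
  obtain ⟨n, hn⟩ := exists_nat_ge (|R|)
  refine ⟨n, ?_⟩
  rintro γ ⟨h1, h2⟩
  have hR : R ≤ n := (le_abs_self R).trans hn
  have h3 : (n : ℝ) ≤ lg S γ q := by
    have h4 := h1 (Finset.univ.erase q) (List.mem_singleton.2 rfl) q (by simp)
    have h5 := sum_lg_nonneg S γ (Finset.univ.erase q)
    have h6 : (0 : ℝ) ≤ n := Nat.cast_nonneg _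
    nlinarith
  refine ⟨?_, ?_⟩
  · rw [gp_eq_exp]
    have := Real.add_one_le_exp (lg S γ q)
    linarith
  · have h4 : ∃ i ∈ Finset.univ.erase q, ¬ lg S γ i ≤ n := by
      by_contra hcon
      push Not at hcon
      exact h2 fun i hi => hcon i hi
    obtain ⟨i, hi, h5⟩ := h4
    refine ⟨i, (Finset.mem_erase.1 hi).1, ?_⟩
    rw [gp_eq_exp]
    have := Real.add_one_le_exp (lg S γ i)
    linarith [not_le.1 h5]

end Geo

variable {G1 X G Λ : Type} [Group G1] [MeasurableSpace X] [MulAction G1 X] [MeasurableConstSMul G1 X]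
  [Group G] [Group Λ] [Countable Λ] {μ : Measure X} [SMulInvariantMeasure G1 X μ] [IsProbabilityMeasure μ]
  {a : Cocy G1 X Λ} {E : Emb Λ G} {N : ℕ} {P : PH G N}

/-- A nonamenable group with a component of type `{q}` reaches the sets `Kq`. -/
theorem reach_q (S : Sv P) {q : Fin N} (hS : SepA S q) (hq : (q : ℕ) + 1 < N) (hmk : N < 2 * ((q : ℕ) + 1))
    (F : Subgroup G1) [Countable F] (hF : NonAm F)
    (p : X → Λ → F) (hp : ∀ l g, MeasurableSet {x | p x l = g})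
    (hpe : ∀ (f : F) (x : X) (l : Λ), p ((f : G1) • x) (a.a f x * l) = f * p x l) {b : ℕ → G1} (hb : ∀ n, b n ∈ F)
    (h0 : XPpr (Pool.Agent.Helper84.GN.toReg (chStr S (Finset.univ.erase q) [])) (vec μ a E b) ≠ 0) :
    ∃ β : ℝ, 0 < β ∧ ∀ R : ℝ, ∃ f ∈ F, β ≤ ‖cl μ (ind ℂ (Kq S q R)) (zx μ a E f)‖ :=
  reachG S (flG_q S hS hq hmk) (Kq_sub S q) F hF p hp hpe hb h0

end Pool.Agent.Helper9.QH
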